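import Pool.Agent.Kcg.Defs

set_option autoImplicit false

namespace Kci

open Kcg

/-- `G` is strongly chordal: every nonempty induced subgraph (vertex set `S`) has a simple vertex,
that is, a vertex `v` such that the closed neighbourhoods (in `S`) of the vertices of the closed
neighbourhood of `v` are linearly ordered by inclusion. -/
def StronglyChordal {V : Type} (G : SimpleGraph V) : Prop :=
  ∀ S : Set V, S.Nonempty → ∃ v ∈ S, ∀ x ∈ S, ∀ y ∈ S, (x = v ∨ G.Adj v x) →
    (y = v ∨ G.Adj v y) →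
    (∀ z ∈ S, (z = x ∨ G.Adj x z) → (z = y ∨ G.Adj y z)) ∨
    (∀ z ∈ S, (z = y ∨ G.Adj y z) → (z = x ∨ G.Adj x z))

/-- `G` is an interval graph: two different vertices are adjacent iff their intervals
`[l v, r v]` meet. -/
def IsInterval {V : Type} (G : SimpleGraph V) : Prop :=
  ∃ l r : V → ℝ, (∀ v, l v ≤ r v) ∧ ∀ u v, u ≠ v → (G.Adj u v ↔ l u ≤ r v ∧ l v ≤ r u)

section
variable {V : Type} [DecidableEq V]

/-- Two nonempty disjoint subsets of `S` without edges between them leave at least `m` vertices of `S`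
outside. -/
def MSep (G : SimpleGraph V) (m : ℕ) (S : Finset V) : Prop :=
  m < S.card ∧ ∀ A B : Finset V, A ⊆ S → B ⊆ S → A.Nonempty → B.Nonempty → Disjoint A B →
    (∀ x ∈ A, ∀ y ∈ B, ¬ G.Adj x y) → m + A.card + B.card ≤ S.card

/-- The closed neighbourhood of `x` in `S`. -/
noncomputable def cn (G : SimpleGraph V) (S : Finset V) (x : V) : Finset V := by
  classical
  exact S.filter (fun z => z = x ∨ G.Adj x z)

theorem mem_cn {G : SimpleGraph V} {S : Finset V} {x z : V} :
    z ∈ cn G S x ↔ z ∈ S ∧ (z = x ∨ G.Adj x z) := by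
  classical
  unfold cn
  simp only [Finset.mem_filter]

/-- `v` is simple in `S`. -/
def Simp (G : SimpleGraph V) (S : Finset V) (v : V) : Prop :=
  ∀ x ∈ cn G S v, ∀ y ∈ cn G S v, cn G S x ⊆ cn G S y ∨ cn G S y ⊆ cn G S x

/-- Solutions: pairwise disjoint paths `t i, P i, t (i + 1)` with inner vertices in `S` that are not
terminals. -/
def Sol (G : SimpleGraph V) {k : ℕ} [NeZero k] (S : Finset V) (t : Fin k → V)
    (P : Fin k → List V) : Prop :=
  (∀ i, (t i :: (P i ++ [t (i + 1)])).IsChain G.Adj) ∧ (∀ i, (P i).Nodup) ∧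
  (∀ i j, i ≠ j → ∀ x ∈ P i, x ∉ P j) ∧ (∀ i, ∀ x ∈ P i, x ∈ S ∧ ∀ j, x ≠ t j)

/-- Induced paths: no shortcuts. -/
def Ind (G : SimpleGraph V) (L : List V) : Prop :=
  ∀ (A : List V) (x : V) (M : List V) (y : V) (B : List V),
    L = A ++ x :: (M ++ y :: B) → M ≠ [] → ¬ G.Adj x y

end

end Kci
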