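import Pool.Agent.Kci.Up
import Pool.Agent.TurMod.Menger

set_option autoImplicit false

/-!
# Even `k`: every `(3 k / 2 - 2)`-connected strongly chordal graph is `k`-ordered
-/

namespace Kci

open Kcg

variable {V : Type} [DecidableEq V]

-- BEGIN row alt
theorem alt_cnt {k : ℕ} [NeZero k] (hev : Even k) (Q B : Finset (Fin k))
    (h : ∀ i ∈ Q, i + 1 ∈ Q → i ∉ B) (hge : k + k / 2 ≤ Q.card + B.card) :
    Q.card = k / 2 ∧ B = Finset.univ ∧ ∀ i, i ∈ Q ↔ i + 1 ∉ Q := by
  classical
  obtain ⟨m, hm⟩ := hev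
  have hk2 : k / 2 = m := by omega
  set Q' : Finset (Fin k) := Q.image (fun i => i - 1) with hQ'
  have hmem : ∀ i : Fin k, i ∈ Q' ↔ i + 1 ∈ Q := by
    intro i
    rw [hQ', Finset.mem_image]
    constructor
    · rintro ⟨j, hj, rfl⟩
      rw [sub_add_cancel]
      exact hj
    · intro hi
      exact ⟨i + 1, hi, by rw [add_sub_cancel_right]⟩
  have hcardQ' : Q'.card = Q.card := by
    rw [hQ']
    apply Finset.card_image_of_injective
    intro a b hab
    exact sub_left_injective hab
  have hBk : B.card ≤ k := by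
    have := Finset.card_le_univ B
    rwa [Fintype.card_fin] at this
  have hsub : Q ∩ Q' ⊆ Bᶜ := by
    intro i hi
    rw [Finset.mem_inter, hmem] at hi
    rw [Finset.mem_compl]
    exact h i hi.1 hi.2
  have hinter : (Q ∩ Q').card ≤ k - B.card := by
    have h1 := Finset.card_le_card hsub
    rwa [Finset.card_compl, Fintype.card_fin] at h1
  have hunion : (Q ∪ Q').card ≤ k := by
    have := Finset.card_le_univ (Q ∪ Q')
    rwa [Fintype.card_fin] at this
  have hsum : (Q ∪ Q').card + (Q ∩ Q').card = Q.card + Q'.card :=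
    Finset.card_union_add_card_inter Q Q'
  have hQ : Q.card = m := by omega
  have hB : B.card = k := by omega
  have hBu : B = Finset.univ := by
    apply Finset.eq_univ_of_card
    rw [Fintype.card_fin]
    exact hB
  have hi0 : Q ∩ Q' = ∅ := by
    rw [← Finset.card_eq_zero]
    omega
  have hu : Q ∪ Q' = Finset.univ := by
    apply Finset.eq_univ_of_card
    rw [Fintype.card_fin]
    rw [hi0, Finset.card_empty] at hsum
    omega
  refine ⟨by omega, hBu, ?_⟩
  intro i
  constructor
  · intro hi hi1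
    have : i ∈ Q ∩ Q' := by
      rw [Finset.mem_inter, hmem]
      exact ⟨hi, hi1⟩
    rw [hi0] at this
    exact absurd this (Finset.notMem_empty i)
  · intro hi1
    have : i ∈ Q ∪ Q' := by
      rw [hu]
      exact Finset.mem_univ i
    rw [Finset.mem_union, hmem] at this
    exact this.resolve_right hi1
-- END row alt

-- BEGIN row cu2
/-- As `card_used`, but the path `c + 1` has no vertex in `N` either and `c + 1 ∈ B`: one less is
used. (Apply the proof of `card_used` with `((B.erase c).erase (c - 1)).erase (c + 1)`, or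
`card_used` to `Function.update P (c + 1) []` and `B.erase (c + 1)`.) -/
theorem card_used2 {G : SimpleGraph V} {k : ℕ} [NeZero k] (hk : 3 ≤ k) {S N : Finset V}
    {t : Fin k → V} {P : Fin k → List V} {c : Fin k} {u : V} (B : Finset (Fin k))
    (hcB : c ∈ B) (hcB' : c - 1 ∈ B) (hcB2 : c + 1 ∈ B)
    (hgood : ∀ i, i ∉ B → P i = [])
    (hone : ∀ i, i ≠ c → i ≠ c - 1 → ((P i).toFinset ∩ N).card ≤ 1)
    (h0 : ∀ x ∈ P c, x ∉ N) (h1 : ∀ x ∈ P (c - 1), x ∉ N) (h2 : ∀ x ∈ P (c + 1), x ∉ N) :
    (insert u (Finset.univ.biUnion (fun i => (P i).toFinset ∩ N))).card + 2 ≤ B.card := by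
  have h1v : ((1 : Fin k) : ℕ) = 1 := by rw [Fin.val_one', Nat.mod_eq_of_lt (by omega)]
  have hc1 : c - 1 ≠ c := by
    intro h
    have h2 : (1 : Fin k) = 0 := by simpa using h
    have h3 := congrArg Fin.val h2
    rw [h1v, Fin.val_zero] at h3
    exact one_ne_zero h3
  have hc2 : c + 1 ≠ c := by
    intro h
    have h2 : (1 : Fin k) = 0 := by simpa using h
    have h3 := congrArg Fin.val h2
    rw [h1v, Fin.val_zero] at h3
    exact one_ne_zero h3
  have hc3 : c + 1 ≠ c - 1 := by
    intro h
    have h2 : (1 : Fin k) + 1 = 0 := by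
      have h3 : c + (1 + 1) = c + 0 := by
        rw [← add_assoc, h, sub_add_cancel, add_zero]
      exact add_left_cancel h3
    have h3 := congrArg Fin.val h2
    rw [Fin.val_add, h1v, Fin.val_zero, Nat.mod_eq_of_lt (by omega)] at h3
    omega
  have h2' : (Finset.univ.biUnion (fun i => (P i).toFinset ∩ N)).card ≤
      (((B.erase c).erase (c - 1)).erase (c + 1)).card := by
    refine Finset.card_biUnion_le.trans ?_
    have h3 : ∀ i ∈ (Finset.univ : Finset (Fin k)), ((P i).toFinset ∩ N).card ≤
        if i ∈ ((B.erase c).erase (c - 1)).erase (c + 1) then 1 else 0 := by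
      intro i _
      have hempty : (∀ x ∈ P i, x ∉ N) → ((P i).toFinset ∩ N).card = 0 := by
        intro h
        rw [Finset.card_eq_zero, Finset.eq_empty_iff_forall_notMem]
        intro x hx
        rw [Finset.mem_inter, List.mem_toFinset] at hx
        exact h x hx.1 hx.2
      by_cases hi : i = c
      · subst hi
        rw [hempty h0]
        exact Nat.zero_le _
      · by_cases hi' : i = c - 1
        · subst hi'
          rw [hempty h1]
          exact Nat.zero_le _
        · by_cases hi2 : i = c + 1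
          · subst hi2
            rw [hempty h2]
            exact Nat.zero_le _
          · by_cases hB : i ∈ B
            · rw [if_pos (Finset.mem_erase.2 ⟨hi2, Finset.mem_erase.2 ⟨hi', Finset.mem_erase.2 ⟨hi, hB⟩⟩⟩)]
              exact hone i hi hi'
            · rw [hempty (by rw [hgood i hB]; intro x hx; exact absurd hx List.not_mem_nil)]
              exact Nat.zero_le _
    refine (Finset.sum_le_sum h3).trans ?_
    rw [Finset.sum_ite_mem, Finset.univ_inter, Finset.sum_const, smul_eq_mul, mul_one]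
  have h4 : c - 1 ∈ B.erase c := Finset.mem_erase.2 ⟨hc1, hcB'⟩
  have h4' : c + 1 ∈ (B.erase c).erase (c - 1) := Finset.mem_erase.2 ⟨hc3, Finset.mem_erase.2 ⟨hc2, hcB2⟩⟩
  have h5 := Finset.card_erase_of_mem h4
  have h5' := Finset.card_erase_of_mem h4'
  have h6 := Finset.card_erase_of_mem hcB
  have h7 : 0 < (B.erase c).card := Finset.card_pos.2 ⟨_, h4⟩
  have h7' : 0 < ((B.erase c).erase (c - 1)).card := Finset.card_pos.2 ⟨_, h4'⟩
  have h8 := Finset.card_insert_le u (Finset.univ.biUnion (fun i => (P i).toFinset ∩ N))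
  omega
-- END row cu2

/-- A family of pairwise disjoint paths `s i :: l i` in `U`, the last vertex is adjacent to `o i`, the
first vertex is the only one in `Y`. -/
structure Fam (G : SimpleGraph V) {k : ℕ} (U Y : Finset V) (o : Fin k → V) (s : Fin k → V)
    (l : Fin k → List V) : Prop where
  chain : ∀ i, (s i :: (l i ++ [o i])).IsChain G.Adj
  nodup : ∀ i, (s i :: l i).Nodup
  disj : ∀ i j, i ≠ j → ∀ x ∈ s i :: l i, x ∉ s j :: l j
  mem : ∀ i, ∀ x ∈ s i :: l i, x ∈ U
  start : ∀ i, s i ∈ Y
  tail : ∀ i, ∀ x ∈ l i, x ∉ Y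

-- BEGIN row trm
/-- Trimming a walk: a walk `l, w` with a vertex of `Y` in `l` contains a path that starts in `Y` and
has no other vertex in `Y`. PROOF. Among all lists `s :: l'` of elements of `l` with `s ∈ Y` and
`(s :: (l' ++ [w])).IsChain G.Adj` (there is one: cut `l` at an element of `Y`) take a shortest one. If
`x ∈ l'` is in `Y`, or if an element occurs twice, a piece can be cut off or out. -/
theorem trim {G : SimpleGraph V} {Y : Finset V} {w : V} {l : List V}
    (h : (l ++ [w]).IsChain G.Adj) (hY : ∃ x ∈ l, x ∈ Y) :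
    ∃ (s : V) (l' : List V), (s :: (l' ++ [w])).IsChain G.Adj ∧ (s :: l').Nodup ∧
      (∀ x ∈ s :: l', x ∈ l) ∧ s ∈ Y ∧ ∀ x ∈ l', x ∉ Y := by
  induction l with
  | nil =>
    obtain ⟨x, hx, _⟩ := hY
    simp at hx
  | cons a l₁ ih =>
    by_cases h1 : ∃ x ∈ l₁, x ∈ Y
    · have h2 : (l₁ ++ [w]).IsChain G.Adj := by
        rw [List.cons_append, List.isChain_cons] at h
        exact h.2
      obtain ⟨s, l', g1, g2, g3, g4, g5⟩ := ih h2 h1
      exact ⟨s, l', g1, g2, fun x hx => List.mem_cons_of_mem _ (g3 x hx), g4, g5⟩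
    · have haY : a ∈ Y := by
        obtain ⟨x, hx, hxY⟩ := hY
        rcases List.mem_cons.1 hx with rfl | hx
        · exact hxY
        · exact absurd ⟨x, hx, hxY⟩ h1
      have hne : (a :: l₁) ≠ [] := List.cons_ne_nil _ _
      rw [List.isChain_append] at h
      obtain ⟨c1, _, c3⟩ := h
      obtain ⟨p, p1, p2, p3, p4, p5⟩ := TurMod.walk_to_path (b := (a :: l₁).getLast hne) c1 rfl
        (List.getLast?_eq_some_getLast hne)
      cases p with
      | nil => simp at p3
      | cons a' l' =>
        simp only [List.head?_cons, Option.some.injEq] at p3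
        subst p3
        refine ⟨a', l', ?_, p2, p5, haY, ?_⟩
        · rw [← List.cons_append, List.isChain_append]
          refine ⟨p1, List.isChain_singleton w, ?_⟩
          intro x hx y hy
          rw [p4] at hx
          refine c3 x ?_ y hy
          rw [List.getLast?_eq_some_getLast hne]
          exact hx
        · intro x hx hxY
          rcases List.mem_cons.1 (p5 x (List.mem_cons_of_mem _ hx)) with h3 | h3
          · exact (List.nodup_cons.1 p2).1 (h3 ▸ hx)
          · exact h1 ⟨x, h3, hxY⟩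
-- END row trm

/-- The auxiliary relation for Menger's theorem: the graph on `U` and a new vertex `i` for every
`i : Fin k`, a sink that is reached from the neighbours of `o i`. -/
def ar (G : SimpleGraph V) {k : ℕ} (U : Finset V) (o : Fin k → V) : V ⊕ Fin k → V ⊕ Fin k → Prop
  | Sum.inl x, Sum.inl y => x ∈ U ∧ y ∈ U ∧ G.Adj x y
  | Sum.inl x, Sum.inr i => x ∈ U ∧ G.Adj x (o i)
  | Sum.inr _, _ => False

-- BEGIN row mn1
omit [DecidableEq V] in
private theorem mn1_list {G : SimpleGraph V} {k : ℕ} {U : Finset V} (o : Fin k → V) {j : Fin k}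
    (q : List (V ⊕ Fin k)) (hq : q.IsChain (ar G U o)) (hl : q.getLast? = some (Sum.inr j)) :
    ∃ l : List V, q = l.map Sum.inl ++ [Sum.inr j] ∧ (l ++ [o j]).IsChain G.Adj ∧
      ∀ x ∈ l, x ∈ U := by
  induction q with
  | nil => simp at hl
  | cons a t ih =>
    cases t with
    | nil =>
      simp only [List.getLast?_singleton, Option.some.injEq] at hl
      subst hl
      exact ⟨[], by simp, by simp, by simp⟩
    | cons b t =>
      have hc := List.isChain_cons_cons.1 hq
      have hl' : (b :: t).getLast? = some (Sum.inr j) := by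
        rw [List.getLast?_cons_cons] at hl
        exact hl
      obtain ⟨l, h1, h2, h3⟩ := ih hc.2 hl'
      cases a with
      | inr i => exact absurd hc.1 (by cases b <;> exact fun h => h)
      | inl x =>
        cases l with
        | nil =>
          rw [List.map_nil, List.nil_append] at h1
          obtain ⟨hb, ht⟩ := List.cons.inj h1
          subst hb
          subst ht
          have h4 : x ∈ U ∧ G.Adj x (o j) := hc.1
          refine ⟨[x], by simp, ?_, ?_⟩
          · exact List.isChain_cons_cons.2 ⟨h4.2, List.isChain_singleton _⟩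
          · intro z hz
            rw [List.mem_singleton.1 hz]
            exact h4.1
        | cons y l =>
          rw [List.map_cons, List.cons_append] at h1
          obtain ⟨hb, ht⟩ := List.cons.inj h1
          subst hb
          have h4 : x ∈ U ∧ y ∈ U ∧ G.Adj x y := hc.1
          refine ⟨x :: y :: l, ?_, ?_, ?_⟩
          · rw [ht]
            simp
          · exact List.isChain_cons_cons.2 ⟨h4.2.2, h2⟩
          · intro z hz
            rcases List.mem_cons.1 hz with hz | hz
            · rw [hz]; exact h4.1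
            · exact h3 z hz

/-- The lists of Menger's theorem for `ar` give a family. PROOF. `P i` (`i < k`) ends in `inr (σ i)`, and
all its other elements are `inl`s (an `inr` has no successor), they form a nonempty list `l` in `U`
(the head is in `Y`, so it is an `inl`, not the last one). `σ` is injective on `i < k` (the lists are
disjoint), so bijective; put `trim` of the list belonging to `j` at `j = σ i`. -/
theorem fam_of_lists {G : SimpleGraph V} {k : ℕ} {U Y : Finset V} (hYU : Y ⊆ U) (o : Fin k → V)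
    (P : ℕ → List (V ⊕ Fin k))
    (h1 : ∀ i < k, TurMod.WalkAB (ar G U o) (Y.map Function.Embedding.inl)
      (Finset.univ.map Function.Embedding.inr) (P i))
    (h2 : ∀ i < k, ∀ j < k, i ≠ j → List.Disjoint (P i) (P j)) :
    ∃ (s : Fin k → V) (l : Fin k → List V), Fam G U Y o s l := by
  have key : ∀ i : Fin k, ∃ (j : Fin k) (s : V) (l : List V), Sum.inr j ∈ P i ∧
      (s :: (l ++ [o j])).IsChain G.Adj ∧ (s :: l).Nodup ∧
      (∀ x ∈ s :: l, Sum.inl x ∈ P i ∧ x ∈ U) ∧ s ∈ Y ∧ ∀ x ∈ l, x ∉ Y := by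
    intro i
    obtain ⟨hc, ⟨a, haY, ha⟩, ⟨b, hb, hbl⟩⟩ := h1 i i.2
    obtain ⟨j, _, rfl⟩ := Finset.mem_map.1 hb
    obtain ⟨y, hy, rfl⟩ := Finset.mem_map.1 haY
    obtain ⟨q, q1, q2, q3⟩ := mn1_list o (P i) hc hbl
    have hyq : y ∈ q := by
      cases q with
      | nil =>
        rw [q1] at ha
        simp at ha
      | cons z q =>
        rw [q1] at ha
        simp only [List.map_cons, List.cons_append, List.head?_cons, Option.some.injEq] at ha
        have hz : z = y := Sum.inl_injective ha
        rw [hz]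
        exact List.mem_cons_self
    obtain ⟨s, l, g1, g2, g3, g4, g5⟩ := trim q2 ⟨y, hyq, hy⟩
    refine ⟨j, s, l, ?_, g1, g2, ?_, g4, g5⟩
    · rw [q1]
      simp
    · intro x hx
      refine ⟨?_, q3 x (g3 x hx)⟩
      rw [q1]
      exact List.mem_append_left _ (List.mem_map_of_mem (g3 x hx))
  choose σ s l hσ k1 k2 k3 k4 k5 using key
  have hinj : Function.Injective σ := by
    intro i i' hii
    by_contra hne
    have hne' : (i : ℕ) ≠ (i' : ℕ) := fun h => hne (Fin.ext h)
    have h3 := hσ i'
    rw [← hii] at h3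
    exact h2 i i.2 i' i'.2 hne' (hσ i) h3
  have hbij : Function.Bijective σ := Finite.injective_iff_bijective.1 hinj
  have hs : ∀ j, σ ((Equiv.ofBijective σ hbij).symm j) = j := fun j =>
    Equiv.ofBijective_apply_symm_apply σ hbij j
  refine ⟨fun j => s ((Equiv.ofBijective σ hbij).symm j),
    fun j => l ((Equiv.ofBijective σ hbij).symm j), ?_, fun j => k2 _, ?_, fun j x hx => (k3 _ x hx).2,
    fun j => k4 _, fun j => k5 _⟩
  · intro j
    have h3 := k1 ((Equiv.ofBijective σ hbij).symm j)
    rw [hs j] at h3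
    exact h3
  · intro i j hij x hx hx'
    have hne : (Equiv.ofBijective σ hbij).symm i ≠ (Equiv.ofBijective σ hbij).symm j :=
      fun h => hij ((Equiv.ofBijective σ hbij).symm.injective h)
    have hne' : (((Equiv.ofBijective σ hbij).symm i : Fin k) : ℕ) ≠
        (((Equiv.ofBijective σ hbij).symm j : Fin k) : ℕ) := fun h => hne (Fin.ext h)
    exact h2 _ (Fin.is_lt _) _ (Fin.is_lt _) hne' (k3 _ x hx).1 (k3 _ x hx').1
-- END row mn1

-- BEGIN row mn2
/-- A small separator for `ar` in terms of `G`: `C` its part in `U`, `J` the sinks in it, `R` the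
vertices of `U` outside `C` that are reached from `Y` outside `C` in `U` minus `C`
(`R` = the `x ∈ U`, `x ∉ C` such that `Relation.ReflTransGen (fun a b => a ∉ C ∧ b ∉ C ∧ a ∈ U ∧ b ∈ U ∧
G.Adj a b) y x` for some `y ∈ Y`, `y ∉ C`). If `x ∈ R` and `G.Adj x (o i)`, `i ∉ J`, there would be a
list from `Y` to `inr i` that avoids `X`. -/
theorem cut_of_sep {G : SimpleGraph V} {k : ℕ} {U Y : Finset V} (hYU : Y ⊆ U) (o : Fin k → V)
    (X : Finset (V ⊕ Fin k))
    (hX : TurMod.Sep (ar G U o) (Y.map Function.Embedding.inl)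
      (Finset.univ.map Function.Embedding.inr) X) (hXk : X.card < k) :
    ∃ (C R : Finset V) (J : Finset (Fin k)), C ⊆ U ∧ R ⊆ U ∧ Disjoint C R ∧ C.card + J.card < k ∧
      Y ⊆ C ∪ R ∧ (∀ x ∈ R, ∀ y ∈ U, G.Adj x y → y ∈ C ∪ R) ∧
      ∀ x ∈ R, ∀ i, i ∉ J → ¬ G.Adj x (o i) := by
  classical
  -- lists that reach `x` avoiding `X`
  let Rch : V → Prop := fun x => ∃ l : List (V ⊕ Fin k), (l ++ [Sum.inl x]).IsChain (ar G U o) ∧
    (∃ y ∈ Y, (l ++ [Sum.inl x]).head? = some (Sum.inl y)) ∧ (∀ v ∈ l ++ [Sum.inl x], v ∉ X)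
  refine ⟨U.filter (fun x => (Sum.inl x : V ⊕ Fin k) ∈ X), U.filter (fun x => Rch x),
    Finset.univ.filter (fun i => (Sum.inr i : V ⊕ Fin k) ∈ X), Finset.filter_subset _ _,
    Finset.filter_subset _ _, ?_, ?_, ?_, ?_, ?_⟩
  · rw [Finset.disjoint_left]
    intro x hx hx'
    obtain ⟨l, -, -, h⟩ := (Finset.mem_filter.1 hx').2
    exact h (Sum.inl x) (by simp) (Finset.mem_filter.1 hx).2
  · have h1 : (U.filter (fun x => (Sum.inl x : V ⊕ Fin k) ∈ X)).card +
        ((Finset.univ : Finset (Fin k)).filter (fun i => (Sum.inr i : V ⊕ Fin k) ∈ X)).card ≤ X.card := by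
      rw [← Finset.card_map (Function.Embedding.inl : V ↪ V ⊕ Fin k),
        ← Finset.card_map (Function.Embedding.inr : Fin k ↪ V ⊕ Fin k) (s := Finset.univ.filter _),
        ← Finset.card_union_of_disjoint]
      · refine Finset.card_le_card fun v hv => ?_
        rcases Finset.mem_union.1 hv with hv | hv
        · obtain ⟨x, hx, rfl⟩ := Finset.mem_map.1 hv
          exact (Finset.mem_filter.1 hx).2
        · obtain ⟨x, hx, rfl⟩ := Finset.mem_map.1 hv
          exact (Finset.mem_filter.1 hx).2
      · rw [Finset.disjoint_left]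
        intro v hv hv'
        obtain ⟨x, -, rfl⟩ := Finset.mem_map.1 hv
        obtain ⟨y, -, hy⟩ := Finset.mem_map.1 hv'
        simp at hy
    omega
  · intro y hy
    by_cases h : (Sum.inl y : V ⊕ Fin k) ∈ X
    · exact Finset.mem_union_left _ (Finset.mem_filter.2 ⟨hYU hy, h⟩)
    · refine Finset.mem_union_right _ (Finset.mem_filter.2 ⟨hYU hy, [], ?_, ⟨y, hy, ?_⟩, ?_⟩)
      · simp
      · simp
      · simpa using h
  · intro x hx y hy hxy
    obtain ⟨hxU, l, h1, h2, h3⟩ := Finset.mem_filter.1 hx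
    by_cases h : (Sum.inl y : V ⊕ Fin k) ∈ X
    · exact Finset.mem_union_left _ (Finset.mem_filter.2 ⟨hy, h⟩)
    · refine Finset.mem_union_right _ (Finset.mem_filter.2 ⟨hy, l ++ [Sum.inl x], ?_, ?_, ?_⟩)
      · rw [List.isChain_append]
        refine ⟨h1, by simp, ?_⟩
        intro a ha b hb
        simp only [List.getLast?_append, List.getLast?_singleton, Option.some_or, Option.mem_def,
          Option.some.injEq, List.head?_cons] at ha hb
        subst ha
        subst hb
        exact ⟨hxU, hy, hxy⟩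
      · obtain ⟨y0, hy0, h4⟩ := h2
        refine ⟨y0, hy0, ?_⟩
        rw [List.head?_append, h4]
        rfl
      · intro v hv
        rcases List.mem_append.1 hv with hv | hv
        · exact h3 v hv
        · rw [List.mem_singleton.1 hv]
          exact h
  · intro x hx i hi hadj
    obtain ⟨hxU, l, h1, h2, h3⟩ := Finset.mem_filter.1 hx
    have hi' : (Sum.inr i : V ⊕ Fin k) ∉ X := fun h => hi (Finset.mem_filter.2 ⟨Finset.mem_univ _, h⟩)
    obtain ⟨v, hv, hvX⟩ := hX (l ++ [Sum.inl x] ++ [Sum.inr i]) (by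
      refine ⟨?_, ?_, ?_⟩
      · rw [List.isChain_append]
        refine ⟨h1, by simp, ?_⟩
        intro a ha b hb
        simp only [List.getLast?_append, List.getLast?_singleton, Option.some_or, Option.mem_def,
          Option.some.injEq, List.head?_cons] at ha hb
        subst ha
        subst hb
        exact ⟨hxU, hadj⟩
      · obtain ⟨y0, hy0, h4⟩ := h2
        refine ⟨Sum.inl y0, Finset.mem_map.2 ⟨y0, hy0, rfl⟩, ?_⟩
        rw [List.head?_append, h4]
        rfl
      · exact ⟨Sum.inr i, Finset.mem_map.2 ⟨i, Finset.mem_univ _, rfl⟩, by simp⟩)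
    rcases List.mem_append.1 hv with hv | hv
    · exact h3 v hv hvX
    · rw [List.mem_singleton.1 hv] at hvX
      exact hi' hvX
-- END row mn2

/-- Menger's theorem in the form we use. -/
theorem fam_or_cut [Fintype V] {G : SimpleGraph V} {k : ℕ} {U Y : Finset V} (hYU : Y ⊆ U)
    (o : Fin k → V) :
    (∃ (s : Fin k → V) (l : Fin k → List V), Fam G U Y o s l) ∨
    ∃ (C R : Finset V) (J : Finset (Fin k)), C ⊆ U ∧ R ⊆ U ∧ Disjoint C R ∧ C.card + J.card < k ∧
      Y ⊆ C ∪ R ∧ (∀ x ∈ R, ∀ y ∈ U, G.Adj x y → y ∈ C ∪ R) ∧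
      ∀ x ∈ R, ∀ i, i ∉ J → ¬ G.Adj x (o i) := by
  classical
  by_cases h : ∀ X : Finset (V ⊕ Fin k), TurMod.Sep (ar G U o) (Y.map Function.Embedding.inl)
      (Finset.univ.map Function.Embedding.inr) X → k ≤ X.card
  · obtain ⟨P, h1, h2⟩ := TurMod.menger_rel _ _ _ k h
    exact Or.inl (fam_of_lists hYU o P h1 h2)
  · push Not at h
    obtain ⟨X, hX, hXk⟩ := h
    exact Or.inr (cut_of_sep hYU o X hX hXk)

-- BEGIN row cut
/-- No small cut. `Q` = every second index (`c, d ∈ Q`, `c ≠ d`), `Y` = the vertices of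
`U = S` minus terminals adjacent to `t c` or `t d`; `t c`, `t d` are not adjacent to the terminals
outside `Q`. PROOF. `O1 = {j ∉ Q | j ∈ J ∧ j - 1 ∈ J}`, `W = {t j | j ∉ Q, j ∉ O1}`,
`A = {t c, t d} ∪ R`, `B = W ∪ (U \ C \ R)`. `W` is not empty: otherwise `J = univ` (`i ∉ Q`: `i ∈ J`;
`i ∈ Q`: `i + 1 ∉ Q`, so `i + 1 - 1 ∈ J`). No edge between `A` and `B` (for `x ∈ R` and `j ∉ Q`, `j ∉ O1`:
`j ∉ J`, `o j = t j`, or `j - 1 ∉ J`, `j - 1 ∈ Q`, `o (j - 1) = t j`). Outside of `A ∪ B` in `S`:
only `C`, `t j` for `j ∈ Q` minus `c, d`, and `t j` for `j ∈ O1`; that is at most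
`|C| + k / 2 - 2 + |J| ≤ k / 2 - 2 + k - 1 < 3 k / 2 - 2`: contradiction to `MSep`. -/
theorem no_cut {G : SimpleGraph V} {k : ℕ} [NeZero k] (hk : 3 ≤ k) (hev : Even k) {S : Finset V}
    (hS : MSep G (3 * k / 2 - 2) S) {t : Fin k → V} (ht : Function.Injective t)
    (htS : ∀ i, t i ∈ S) {Q : Finset (Fin k)} (hQ : ∀ i, i ∈ Q ↔ i + 1 ∉ Q)
    (hQc : Q.card = k / 2) {c d : Fin k} (hc : c ∈ Q) (hd : d ∈ Q) (hcd : c ≠ d)
    (hcn : ∀ j, j ∉ Q → ¬ G.Adj (t c) (t j)) (hdn : ∀ j, j ∉ Q → ¬ G.Adj (t d) (t j))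
    {U Y C R : Finset V} {J : Finset (Fin k)}
    (hU : ∀ x, x ∈ U ↔ x ∈ S ∧ ∀ j, x ≠ t j)
    (hY : ∀ x, x ∈ Y ↔ x ∈ U ∧ (G.Adj (t c) x ∨ G.Adj (t d) x))
    (hCU : C ⊆ U) (hRU : R ⊆ U) (hCR : Disjoint C R) (hcard : C.card + J.card < k)
    (hYC : Y ⊆ C ∪ R) (hcl : ∀ x ∈ R, ∀ y ∈ U, G.Adj x y → y ∈ C ∪ R)
    (hR : ∀ x ∈ R, ∀ i, i ∉ J → ¬ G.Adj x (if i ∈ Q then t (i + 1) else t i)) : False := by
  classical
  have hUt : ∀ x ∈ U, ∀ j, x ≠ t j := fun x hx => ((hU x).1 hx).2
  have hUS : ∀ x ∈ U, x ∈ S := fun x hx => ((hU x).1 hx).1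
  obtain ⟨O1, hO1⟩ : ∃ O1 : Finset (Fin k), ∀ j, j ∈ O1 ↔ (j ∉ Q ∧ j ∈ J ∧ j - 1 ∈ J) :=
    ⟨Finset.univ.filter (fun j => j ∉ Q ∧ j ∈ J ∧ j - 1 ∈ J), by intro j; simp⟩
  obtain ⟨W, hW⟩ : ∃ W : Finset V, ∀ x, x ∈ W ↔ ∃ j, (j ∉ Q ∧ j ∉ O1) ∧ t j = x :=
    ⟨(Finset.univ.filter (fun j => j ∉ Q ∧ j ∉ O1)).image t, by intro x; simp⟩
  obtain ⟨A, hA⟩ : ∃ A : Finset V, A = insert (t c) (insert (t d) R) := ⟨_, rfl⟩
  obtain ⟨B, hB⟩ : ∃ B : Finset V, B = W ∪ ((U \ C) \ R) := ⟨_, rfl⟩
  have mA : ∀ x, x ∈ A ↔ x = t c ∨ x = t d ∨ x ∈ R := by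
    intro x
    rw [hA, Finset.mem_insert, Finset.mem_insert]
  have mB : ∀ x, x ∈ B ↔ x ∈ W ∨ (x ∈ U ∧ x ∉ C) ∧ x ∉ R := by
    intro x
    rw [hB, Finset.mem_union, Finset.mem_sdiff, Finset.mem_sdiff]
  have hWne : W.Nonempty := by
    by_contra hn
    have hall : ∀ j, j ∉ Q → j ∈ O1 := by
      intro j hj
      by_contra h
      exact hn ⟨t j, (hW (t j)).2 ⟨j, ⟨hj, h⟩, rfl⟩⟩
    have hJ : J = Finset.univ := by
      refine Finset.eq_univ_of_forall fun i => ?_
      by_cases hi : i ∈ Q
      · have h1 := ((hO1 (i + 1)).1 (hall (i + 1) ((hQ i).1 hi))).2.2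
        rwa [add_sub_cancel_right] at h1
      · exact ((hO1 i).1 (hall i hi)).2.1
    rw [hJ, Finset.card_univ, Fintype.card_fin] at hcard
    omega
  have hAS : A ⊆ S := by
    intro x hx
    rcases (mA x).1 hx with rfl | rfl | h
    · exact htS c
    · exact htS d
    · exact hUS x (hRU h)
  have hBS : B ⊆ S := by
    intro x hx
    rcases (mB x).1 hx with h | h
    · obtain ⟨j, _, rfl⟩ := (hW x).1 h
      exact htS j
    · exact hUS x h.1.1
  have hdisj : Disjoint A B := by
    rw [Finset.disjoint_left]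
    intro x hx hxB
    rcases (mB x).1 hxB with h | ⟨⟨hxU, hnC⟩, hnR⟩
    · obtain ⟨j, ⟨hjQ, _⟩, rfl⟩ := (hW x).1 h
      rcases (mA _).1 hx with h1 | h1 | h1
      · exact hjQ (by rw [ht h1]; exact hc)
      · exact hjQ (by rw [ht h1]; exact hd)
      · exact hUt _ (hRU h1) j rfl
    · rcases (mA _).1 hx with h1 | h1 | h1
      · exact hUt _ hxU c h1
      · exact hUt _ hxU d h1
      · exact hnR h1
  have hno : ∀ x ∈ A, ∀ y ∈ B, ¬ G.Adj x y := by
    intro x hx y hy hxy
    rcases (mB y).1 hy with h | ⟨⟨hyU, hnC⟩, hnR⟩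
    · obtain ⟨j, ⟨hjQ, hjO⟩, rfl⟩ := (hW y).1 h
      rcases (mA _).1 hx with rfl | rfl | h1
      · exact hcn j hjQ hxy
      · exact hdn j hjQ hxy
      · by_cases hjJ : j ∈ J
        · have h2 : j - 1 ∉ J := fun h2 => hjO ((hO1 j).2 ⟨hjQ, hjJ, h2⟩)
          have h3 : j - 1 ∈ Q := by
            rw [hQ, sub_add_cancel]
            exact hjQ
          have h4 := hR x h1 (j - 1) h2
          rw [if_pos h3, sub_add_cancel] at h4
          exact h4 hxy
        · have h4 := hR x h1 j hjJ
          rw [if_neg hjQ] at h4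
          exact h4 hxy
    · have hnot : y ∉ C ∪ R := by
        rw [Finset.mem_union]
        rintro (h | h)
        · exact hnC h
        · exact hnR h
      rcases (mA _).1 hx with rfl | rfl | h1
      · exact hnot (hYC ((hY y).2 ⟨hyU, Or.inl hxy⟩))
      · exact hnot (hYC ((hY y).2 ⟨hyU, Or.inr hxy⟩))
      · exact hnot (hcl x h1 y hyU hxy)
  have hmain := hS.2 A B hAS hBS ⟨t c, (mA _).2 (Or.inl rfl)⟩
    (hWne.mono fun x hx => (mB x).2 (Or.inl hx)) hdisj hno
  have hcov : S ⊆ A ∪ B ∪ C ∪ ((Q.erase c).erase d).image t ∪ O1.image t := by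
    intro x hx
    simp only [Finset.mem_union, Finset.mem_image, Finset.mem_erase]
    by_cases hxt : ∃ j, x = t j
    · obtain ⟨j, rfl⟩ := hxt
      by_cases hj : j ∈ Q
      · by_cases h1 : j = c
        · exact Or.inl (Or.inl (Or.inl (Or.inl ((mA _).2 (Or.inl (by rw [h1]))))))
        · by_cases h2 : j = d
          · exact Or.inl (Or.inl (Or.inl (Or.inl ((mA _).2 (Or.inr (Or.inl (by rw [h2])))))))
          · exact Or.inl (Or.inr ⟨j, ⟨h2, h1, hj⟩, rfl⟩)
      · by_cases h1 : j ∈ O1
        · exact Or.inr ⟨j, h1, rfl⟩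
        · exact Or.inl (Or.inl (Or.inl (Or.inr ((mB _).2 (Or.inl ((hW _).2 ⟨j, ⟨hj, h1⟩, rfl⟩))))))
    · have hxU : x ∈ U := (hU x).2 ⟨hx, fun j hj => hxt ⟨j, hj⟩⟩
      by_cases h1 : x ∈ C
      · exact Or.inl (Or.inl (Or.inr h1))
      · by_cases h2 : x ∈ R
        · exact Or.inl (Or.inl (Or.inl (Or.inl ((mA _).2 (Or.inr (Or.inr h2))))))
        · exact Or.inl (Or.inl (Or.inl (Or.inr ((mB _).2 (Or.inr ⟨⟨hxU, h1⟩, h2⟩)))))
  have h0 := Finset.card_le_card hcov
  have h1 := Finset.card_union_le (A ∪ B ∪ C ∪ ((Q.erase c).erase d).image t) (O1.image t)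
  have h2 := Finset.card_union_le (A ∪ B ∪ C) (((Q.erase c).erase d).image t)
  have h3 := Finset.card_union_le (A ∪ B) C
  have h4 := Finset.card_union_le A B
  have h5 : (O1.image t).card ≤ J.card :=
    Finset.card_image_le.trans (Finset.card_le_card fun j hj => ((hO1 j).1 hj).2.1)
  have h6 : (((Q.erase c).erase d).image t).card ≤ k / 2 - 1 - 1 := by
    refine Finset.card_image_le.trans ?_
    rw [Finset.card_erase_of_mem (Finset.mem_erase.2 ⟨hcd.symm, hd⟩), Finset.card_erase_of_mem hc, hQc]
  obtain ⟨m, hm⟩ := hev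
  omega
-- END row cut

-- BEGIN row asg
/-- From paths directed from the `Q`-end of the pair `i` to its other end to a solution:
`P i = L i` for `i ∈ Q`, `P i = (L i).reverse` otherwise. -/
theorem assign {G : SimpleGraph V} {k : ℕ} [NeZero k] {S : Finset V} {t : Fin k → V}
    (Q : Finset (Fin k)) (L : Fin k → List V)
    (h1 : ∀ i, ((if i ∈ Q then t i else t (i + 1)) ::
      (L i ++ [if i ∈ Q then t (i + 1) else t i])).IsChain G.Adj)
    (h2 : ∀ i, (L i).Nodup) (h3 : ∀ i j, i ≠ j → ∀ x ∈ L i, x ∉ L j)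
    (h4 : ∀ i, ∀ x ∈ L i, x ∈ S ∧ ∀ j, x ≠ t j) : ∃ P, Sol G S t P := by
  have hm : ∀ i x, x ∈ (if i ∈ Q then L i else (L i).reverse) ↔ x ∈ L i := by
    intro i x
    by_cases hi : i ∈ Q
    · rw [if_pos hi]
    · rw [if_neg hi, List.mem_reverse]
  refine ⟨fun i => if i ∈ Q then L i else (L i).reverse, fun i => ?_, fun i => ?_,
    fun i j hij x hx hy => ?_, fun i x hx => h4 i x ((hm i x).1 hx)⟩
  · have h := h1 i
    by_cases hi : i ∈ Q
    · rw [if_pos hi, if_pos hi] at h
      show (t i :: ((if i ∈ Q then L i else (L i).reverse) ++ [t (i + 1)])).IsChain G.Adj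
      rw [if_pos hi]
      exact h
    · rw [if_neg hi, if_neg hi] at h
      show (t i :: ((if i ∈ Q then L i else (L i).reverse) ++ [t (i + 1)])).IsChain G.Adj
      rw [if_neg hi]
      have he : (t i :: ((L i).reverse ++ [t (i + 1)])) = (t (i + 1) :: (L i ++ [t i])).reverse := by
        rw [List.reverse_cons, List.reverse_append, List.reverse_singleton, List.singleton_append,
          List.cons_append]
      rw [he, List.isChain_reverse]
      exact h.imp fun a b hab => hab.symm
  · show (if i ∈ Q then L i else (L i).reverse).Nodup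
    by_cases hi : i ∈ Q
    · rw [if_pos hi]
      exact h2 i
    · rw [if_neg hi]
      exact List.nodup_reverse.2 (h2 i)
  · exact h3 i j hij x ((hm i x).1 hx) ((hm j x).1 hy)
-- END row asg

-- BEGIN row swp
theorem swp_ne {k : ℕ} [NeZero k] (hk : 4 ≤ k) (c : Fin k) :
    c ≠ c + 1 ∧ c ≠ c - 1 ∧ c ≠ c - 1 - 1 ∧ c + 1 ≠ c - 1 ∧ c + 1 ≠ c - 1 - 1 ∧
      c - 1 ≠ c - 1 - 1 := by
  have h1 : ((1 : Fin k) : ℕ) = 1 := by
    rw [Fin.val_one', Nat.mod_eq_of_lt (by omega)]
  have h2 : ((1 + 1 : Fin k) : ℕ) = 2 := by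
    rw [Fin.val_add, h1, Nat.mod_eq_of_lt (by omega)]
  have h3 : ((1 + 1 + 1 : Fin k) : ℕ) = 3 := by
    rw [Fin.val_add, h2, h1, Nat.mod_eq_of_lt (by omega)]
  have e1 : (1 : Fin k) ≠ 0 := by
    intro h
    rw [h, Fin.val_zero] at h1
    omega
  have e2 : (1 + 1 : Fin k) ≠ 0 := by
    intro h
    rw [h, Fin.val_zero] at h2
    omega
  have e3 : (1 + 1 + 1 : Fin k) ≠ 0 := by
    intro h
    rw [h, Fin.val_zero] at h3
    omega
  refine ⟨fun h => e1 ?_, fun h => e1 ?_, fun h => e2 ?_, fun h => e2 ?_, fun h => e3 ?_,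
    fun h => e1 ?_⟩
  · exact (add_eq_left.1 h.symm)
  · have h4 : c - (c - 1) = c - c := by rw [← h]
    rw [sub_sub_cancel, sub_self] at h4
    exact h4
  · have h4 : c - (c - 1 - 1) = c - c := by rw [← h]
    rw [sub_self] at h4
    rw [← h4]
    abel
  · have h4 : (c + 1) - (c - 1) = (c + 1) - (c + 1) := by rw [← h]
    rw [sub_self] at h4
    rw [← h4]
    abel
  · have h4 : (c + 1) - (c - 1 - 1) = (c + 1) - (c + 1) := by rw [← h]
    rw [sub_self] at h4
    rw [← h4]
    abel
  · have h4 : (c - 1) - (c - 1 - 1) = (c - 1) - (c - 1) := by rw [← h]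
    rw [sub_self, sub_sub_cancel] at h4
    exact h4

/-- Swapping two members of a family with the same target. -/
theorem Fam.swap {G : SimpleGraph V} {k : ℕ} {U Y : Finset V} {o s : Fin k → V}
    {l : Fin k → List V} (h : Fam G U Y o s l) (a b : Fin k) (hab : o a = o b) :
    Fam G U Y o (fun i => s (Equiv.swap a b i)) (fun i => l (Equiv.swap a b i)) := by
  have ho : ∀ i, o (Equiv.swap a b i) = o i := by
    intro i
    by_cases h1 : i = a
    · rw [h1, Equiv.swap_apply_left, hab]
    · by_cases h2 : i = b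
      · rw [h2, Equiv.swap_apply_right, hab]
      · rw [Equiv.swap_apply_of_ne_of_ne h1 h2]
  refine ⟨fun i => ?_, fun i => h.nodup _, fun i j hij => ?_, fun i => h.mem _, fun i => h.start _,
    fun i => h.tail _⟩
  · have h1 := h.chain (Equiv.swap a b i)
    rw [ho] at h1
    exact h1
  · exact h.disj _ _ (fun h1 => hij ((Equiv.swap a b).injective h1))

/-- Normal form: `s c ∈ X` or `s (c + 1) ∉ X`, and `s (c - 1) ∈ X` or `s (c - 1 - 1) ∉ X` (swap `c` with
`c + 1`, both have the target `t (c + 1)`, and `c - 1` with `c - 1 - 1`, both have the target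
`t (c - 1)`; the four indices are different, `k ≥ 4`). -/
theorem fam_norm {G : SimpleGraph V} {k : ℕ} [NeZero k] (hk : 4 ≤ k) {t : Fin k → V}
    {Q : Finset (Fin k)} (hQ : ∀ i, i ∈ Q ↔ i + 1 ∉ Q) {c : Fin k} (hc : c ∈ Q) {U Y X : Finset V}
    (h : ∃ s l, Fam G U Y (fun i => if i ∈ Q then t (i + 1) else t i) s l) :
    ∃ s l, Fam G U Y (fun i => if i ∈ Q then t (i + 1) else t i) s l ∧
      (s c ∈ X ∨ s (c + 1) ∉ X) ∧ (s (c - 1) ∈ X ∨ s (c - 1 - 1) ∉ X) := by
  obtain ⟨n1, n2, n3, n4, n5, n6⟩ := swp_ne hk c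
  have hc1 : c + 1 ∉ Q := (hQ c).1 hc
  have hcm : c - 1 ∉ Q := by
    intro h1
    have h2 := (hQ (c - 1)).1 h1
    rw [sub_add_cancel] at h2
    exact h2 hc
  have hcm2 : c - 1 - 1 ∈ Q := by
    rw [hQ, sub_add_cancel]
    exact hcm
  have h1 : ∃ s l, Fam G U Y (fun i => if i ∈ Q then t (i + 1) else t i) s l ∧
      (s c ∈ X ∨ s (c + 1) ∉ X) := by
    obtain ⟨s, l, hF⟩ := h
    by_cases hg : s c ∈ X ∨ s (c + 1) ∉ X
    · exact ⟨s, l, hF, hg⟩
    · rw [not_or, not_not] at hg
      refine ⟨_, _, hF.swap c (c + 1) ?_, Or.inl ?_⟩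
      · show (if c ∈ Q then t (c + 1) else t c) = if c + 1 ∈ Q then t (c + 1 + 1) else t (c + 1)
        rw [if_pos hc, if_neg hc1]
      · show s (Equiv.swap c (c + 1) c) ∈ X
        rw [Equiv.swap_apply_left]
        exact hg.2
  obtain ⟨s, l, hF, hg⟩ := h1
  by_cases hg2 : s (c - 1) ∈ X ∨ s (c - 1 - 1) ∉ X
  · exact ⟨s, l, hF, hg, hg2⟩
  · rw [not_or, not_not] at hg2
    refine ⟨_, _, hF.swap (c - 1) (c - 1 - 1) ?_, ?_, Or.inl ?_⟩
    · show (if c - 1 ∈ Q then t (c - 1 + 1) else t (c - 1)) =
        if c - 1 - 1 ∈ Q then t (c - 1 - 1 + 1) else t (c - 1 - 1)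
      rw [if_neg hcm, if_pos hcm2, sub_add_cancel]
    · show s (Equiv.swap (c - 1) (c - 1 - 1) c) ∈ X ∨ s (Equiv.swap (c - 1) (c - 1 - 1) (c + 1)) ∉ X
      rw [Equiv.swap_apply_of_ne_of_ne n2 n3, Equiv.swap_apply_of_ne_of_ne n4 n5]
      exact hg
    · show s (Equiv.swap (c - 1) (c - 1 - 1) (c - 1)) ∈ X
      rw [Equiv.swap_apply_left]
      exact hg2.2
-- END row swp

-- BEGIN row fin
private theorem fin_two {k : ℕ} [NeZero k] (hk : 3 ≤ k) : (1 + 1 : Fin k) ≠ 0 := by
  intro h
  have h1 : ((1 : Fin k) : ℕ) = 1 := by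
    rw [Fin.val_one', Nat.mod_eq_of_lt (by omega)]
  have h2 := congrArg Fin.val h
  rw [Fin.val_add, h1, Fin.val_zero, Nat.mod_eq_of_lt (by omega)] at h2
  omega

private theorem fin_count {k : ℕ} {X : Finset V} (hXk : k ≤ X.card + 1) (s : Fin k → V)
    (T : Finset (Fin k)) (hT : ∀ i ∈ T, s i ∉ X) :
    T.card ≤ (X.filter fun x => ∀ i, x ≠ s i).card + 1 := by
  set X' := X.filter fun x => ∀ i, x ≠ s i with hX'
  set H := Finset.univ.filter fun i => s i ∈ X with hH
  have h1 : X ⊆ X' ∪ H.image s := by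
    intro x hx
    rw [Finset.mem_union, hX', Finset.mem_filter]
    by_cases h : ∀ i, x ≠ s i
    · exact Or.inl ⟨hx, h⟩
    · push Not at h
      obtain ⟨i, hi⟩ := h
      refine Or.inr (Finset.mem_image.2 ⟨i, ?_, hi.symm⟩)
      rw [hH, Finset.mem_filter]
      exact ⟨Finset.mem_univ i, hi ▸ hx⟩
  have h2 : X.card ≤ X'.card + H.card :=
    (Finset.card_le_card h1).trans ((Finset.card_union_le _ _).trans
      (Nat.add_le_add_left Finset.card_image_le _))
  have h3 : Disjoint H T := by
    rw [Finset.disjoint_left]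
    intro i hi hi'
    exact hT i hi' (Finset.mem_filter.1 hi).2
  have h4 : H.card + T.card ≤ k := by
    rw [← Finset.card_union_of_disjoint h3]
    exact (Finset.card_le_univ _).trans (le_of_eq (Fintype.card_fin k))
  omega

/-- The solution from a family in normal form. PROOF. `H = {i | s i ∈ X}`, `X' = X \ {s i | i ∈ H}`
has at least `k - 1 - |H|` elements, no element of `X'` is on a path of the family (`tail`). If
`s c ∉ X` and `s (c - 1) ∉ X`, four indices are not in `H`, so `|X'| ≥ 3`; if only one of them is not in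
`X`, at least two indices are not in `H`, so `|X'| ≥ 1`. So we can put a vertex `x ∈ X'` in front of the
path `c` if `s c ∉ X`, and another one `x'` in front of the path `c - 1` if `s (c - 1) ∉ X`
(`hX` gives `G.Adj x (s c)`). Use `assign` with these lists: the `Q`-end of the pairs `c` and `c - 1` is
`t c` (`c - 1 ∉ Q`, `c - 1 + 1 = c`), of every other pair it is a `t j`, `j ∈ Q`, `j ≠ c`. -/
theorem fam_fin {G : SimpleGraph V} {k : ℕ} [NeZero k] (hk : 4 ≤ k) {S : Finset V} {t : Fin k → V}
    {Q : Finset (Fin k)} (hQ : ∀ i, i ∈ Q ↔ i + 1 ∉ Q) {c : Fin k} (hc : c ∈ Q) {U Y X : Finset V}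
    (hU : ∀ x, x ∈ U ↔ x ∈ S ∧ ∀ j, x ≠ t j) (hYU : Y ⊆ U) (hXY : X ⊆ Y) (hXk : k ≤ X.card + 1)
    (hvX : ∀ x ∈ X, G.Adj (t c) x) (hY : ∀ y ∈ Y, ∀ j ∈ Q, j ≠ c → G.Adj (t j) y)
    (hX : ∀ x ∈ X, ∀ y ∈ Y, x ≠ y → G.Adj x y) {s : Fin k → V} {l : Fin k → List V}
    (hF : Fam G U Y (fun i => if i ∈ Q then t (i + 1) else t i) s l)
    (n1 : s c ∈ X ∨ s (c + 1) ∉ X) (n2 : s (c - 1) ∈ X ∨ s (c - 1 - 1) ∉ X) :
    ∃ P, Sol G S t P := by
  have hc1 : c + 1 ∉ Q := (hQ c).1 hc
  have hcm : c - 1 ∉ Q := by
    rw [hQ (c - 1), sub_add_cancel]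
    exact fun h => h hc
  have hcmm : c - 1 - 1 ∈ Q := by
    rw [hQ (c - 1 - 1), sub_add_cancel]
    exact hcm
  have h20 := fin_two (k := k) (by omega)
  have hne1 : c + 1 ≠ c - 1 := by
    intro h
    apply h20
    have h3 : c + (1 + 1) = c := by
      rw [← add_assoc, h, sub_add_cancel]
    exact left_eq_add.1 h3.symm
  have hne2 : c ≠ c - 1 - 1 := by
    intro h
    apply h20
    have h3 : c + (1 + 1) = c := by
      nth_rw 1 [h]
      rw [← add_assoc, sub_add_cancel, sub_add_cancel]
    exact left_eq_add.1 h3.symm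
  have hcc1 : c ≠ c - 1 := fun h => hcm (h ▸ hc)
  have hc1' : c ≠ c + 1 := fun h => hc1 (h ▸ hc)
  have hmm : c - 1 ≠ c - 1 - 1 := by
    intro h
    apply hcm
    rw [h]
    exact hcmm
  set X' := X.filter fun x => ∀ i, x ≠ s i with hX'
  have hX'X : ∀ x ∈ X', x ∈ X := fun x hx => (Finset.mem_filter.1 hx).1
  have hX's : ∀ x ∈ X', ∀ i, x ∉ s i :: l i := by
    intro x hx i hxi
    rcases List.mem_cons.1 hxi with h | h
    · exact (Finset.mem_filter.1 hx).2 i h
    · exact hF.tail i x h (hXY (hX'X x hx))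
  -- the two additional vertices
  obtain ⟨x, x', hx, hx', hxx⟩ : ∃ x x' : V, (s c ∉ X → x ∈ X') ∧ (s (c - 1) ∉ X → x' ∈ X') ∧
      (s c ∉ X → s (c - 1) ∉ X → x ≠ x') := by
    by_cases g1 : s c ∈ X
    · by_cases g2 : s (c - 1) ∈ X
      · exact ⟨s c, s c, fun h => absurd g1 h, fun h => absurd g2 h, fun h => absurd g1 h⟩
      · have h3 := fin_count hXk s {c - 1, c - 1 - 1} (by
          intro i hi
          rcases Finset.mem_insert.1 hi with rfl | hi
          · exact g2
          · rw [Finset.mem_singleton.1 hi]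
            exact n2.resolve_left g2)
        rw [Finset.card_pair hmm] at h3
        have h3' : 2 ≤ X'.card + 1 := h3
        obtain ⟨x', hx'⟩ : X'.Nonempty := Finset.card_pos.1 (by omega)
        exact ⟨x', x', fun h => absurd g1 h, fun _ => hx', fun h => absurd g1 h⟩
    · by_cases g2 : s (c - 1) ∈ X
      · have h3 := fin_count hXk s {c, c + 1} (by
          intro i hi
          rcases Finset.mem_insert.1 hi with rfl | hi
          · exact g1
          · rw [Finset.mem_singleton.1 hi]
            exact n1.resolve_left g1)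
        rw [Finset.card_pair hc1'] at h3
        have h3' : 2 ≤ X'.card + 1 := h3
        obtain ⟨x, hx⟩ : X'.Nonempty := Finset.card_pos.1 (by omega)
        exact ⟨x, x, fun _ => hx, fun h => absurd g2 h, fun _ h => absurd g2 h⟩
      · have h3 := fin_count hXk s {c, c + 1, c - 1, c - 1 - 1} (by
          intro i hi
          simp only [Finset.mem_insert, Finset.mem_singleton] at hi
          rcases hi with rfl | rfl | rfl | rfl
          · exact g1
          · exact n1.resolve_left g1
          · exact g2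
          · exact n2.resolve_left g2)
        have h4 : ({c, c + 1, c - 1, c - 1 - 1} : Finset (Fin k)).card = 4 := by
          rw [Finset.card_insert_of_notMem, Finset.card_insert_of_notMem,
            Finset.card_pair hmm]
          · simp only [Finset.mem_insert, Finset.mem_singleton, not_or]
            exact ⟨hne1, fun h => hc1 (h ▸ hcmm)⟩
          · simp only [Finset.mem_insert, Finset.mem_singleton, not_or]
            exact ⟨hc1', hcc1, hne2⟩
        have h5 : 4 ≤ X'.card + 1 := by
          rw [← h4]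
          exact h3
        obtain ⟨x, hx, x', hx', hxx⟩ := Finset.one_lt_card.1 (show 1 < X'.card by omega)
        exact ⟨x, x', fun _ => hx, fun _ => hx', fun _ _ => hxx⟩
  -- the prefixes
  set p : Fin k → List V := fun i => if i = c ∧ s c ∉ X then [x] else
    if i = c - 1 ∧ s (c - 1) ∉ X then [x'] else [] with hp
  have hpX : ∀ i, ∀ y ∈ p i, y ∈ X' := by
    intro i y hy
    simp only [hp] at hy
    split_ifs at hy with g1 g2
    · rw [List.mem_singleton.1 hy]
      exact hx g1.2
    · rw [List.mem_singleton.1 hy]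
      exact hx' g2.2
    · simp at hy
  have hpn : ∀ i, (p i).Nodup := by
    intro i
    simp only [hp]
    split_ifs <;> simp
  have hpd : ∀ i j, i ≠ j → ∀ y ∈ p i, y ∉ p j := by
    intro i j hij y hy hy'
    simp only [hp] at hy hy'
    split_ifs at hy hy' with g1 g2 g3 g4 g5 g6
    · exact hij (g1.1.trans g2.1.symm)
    · exact hxx g1.2 g3.2 ((List.mem_singleton.1 hy).symm.trans (List.mem_singleton.1 hy'))
    · simp at hy'
    · exact hxx g5.2 g4.2 ((List.mem_singleton.1 hy').symm.trans (List.mem_singleton.1 hy))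
    · exact hij (g4.1.trans g6.1.symm)
    · simp at hy'
    all_goals simp at hy
  refine assign Q (fun i => p i ++ (s i :: l i)) ?_ ?_ ?_ ?_
  · intro i
    have hch := hF.chain i
    by_cases g1 : i = c
    · subst g1
      by_cases g2 : s i ∈ X
      · have e : p i = [] := by
          simp only [hp]
          rw [if_neg (fun h => h.2 g2), if_neg (fun h => hcc1 h.1)]
        simp only [e, List.nil_append, List.cons_append, if_pos hc] at hch ⊢
        exact List.isChain_cons_cons.2 ⟨hvX _ g2, hch⟩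
      · have e : p i = [x] := by
          simp only [hp]
          rw [if_pos ⟨trivial, g2⟩]
        simp only [e, List.cons_append, List.nil_append, if_pos hc] at hch ⊢
        exact List.isChain_cons_cons.2 ⟨hvX _ (hX'X _ (hx g2)), List.isChain_cons_cons.2
          ⟨hX x (hX'X _ (hx g2)) _ (hF.start i) (fun h => g2 (h ▸ hX'X _ (hx g2))), hch⟩⟩
    · by_cases g3 : i = c - 1
      · subst g3
        by_cases g2 : s (c - 1) ∈ X
        · have e : p (c - 1) = [] := by
            simp only [hp]
            rw [if_neg (fun h => g1 h.1), if_neg (fun h => h.2 g2)]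
          simp only [e, List.nil_append, List.cons_append, if_neg hcm, sub_add_cancel] at hch ⊢
          exact List.isChain_cons_cons.2 ⟨hvX _ g2, hch⟩
        · have e : p (c - 1) = [x'] := by
            simp only [hp]
            rw [if_neg (fun h => g1 h.1), if_pos ⟨trivial, g2⟩]
          simp only [e, List.cons_append, List.nil_append, if_neg hcm, sub_add_cancel] at hch ⊢
          exact List.isChain_cons_cons.2 ⟨hvX _ (hX'X _ (hx' g2)), List.isChain_cons_cons.2
            ⟨hX x' (hX'X _ (hx' g2)) _ (hF.start _) (fun h => g2 (h ▸ hX'X _ (hx' g2))), hch⟩⟩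
      · have e : p i = [] := by
          simp only [hp]
          rw [if_neg (fun h => g1 h.1), if_neg (fun h => g3 h.1)]
        simp only [e, List.nil_append, List.cons_append] at hch ⊢
        refine List.isChain_cons_cons.2 ⟨?_, hch⟩
        by_cases hi : i ∈ Q
        · rw [if_pos hi]
          exact hY _ (hF.start i) i hi g1
        · rw [if_neg hi]
          have hi1 : i + 1 ∈ Q := by
            by_contra h
            exact hi ((hQ i).2 h)
          refine hY _ (hF.start i) (i + 1) hi1 fun h => g3 ?_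
          rw [← h, add_sub_cancel_right]
  · intro i
    refine List.nodup_append.2 ⟨hpn i, hF.nodup i, ?_⟩
    intro y hy z hz hyz
    exact hX's y (hpX i y hy) i (hyz ▸ hz)
  · intro i j hij y hy hy'
    rcases List.mem_append.1 hy with h | h
    · rcases List.mem_append.1 hy' with h' | h'
      · exact hpd i j hij y h h'
      · exact hX's y (hpX i y h) j h'
    · rcases List.mem_append.1 hy' with h' | h'
      · exact hX's y (hpX j y h') i h
      · exact hF.disj i j hij y h h'
  · intro i y hy
    rw [← hU]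
    rcases List.mem_append.1 hy with h | h
    · exact hYU (hXY (hX'X y (hpX i y h)))
    · exact hF.mem i y h
-- END row fin

-- BEGIN row csa
private theorem csa_rev {G : SimpleGraph V} {a b : V} {L : List V}
    (h : (a :: (L ++ [b])).IsChain G.Adj) : (b :: (L.reverse ++ [a])).IsChain G.Adj := by
  have e : b :: (L.reverse ++ [a]) = (a :: (L ++ [b])).reverse := by simp
  rw [e, List.isChain_reverse]
  exact h.imp fun x y hxy => hxy.symm

/-- Case A: `cn u ⊆ cn (t (c + 1 + 1))` and the path `c + 1` uses a vertex `x` of `cn (t c)`.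
PROOF. `x` is adjacent to `t (c + 1 + 1)`, so it is the last element of `P' (c + 1)` (`ind_last`). `P' c` is
not empty (`t (c + 1)` adjacent to `u` would be in `cn u ⊆ cn (t (c + 1 + 1))`), its first element `z`
is in `cn u`, so adjacent to `t (c + 1 + 1)`. New solution: `c ↦ (P' (c + 1)).reverse`,
`c + 1 ↦ (P' c).reverse`, `c - 1 ↦ P' (c - 1) ++ [u]`, all others as in `P'`. -/
theorem case_A {G : SimpleGraph V} {k : ℕ} [NeZero k] (hk : 4 ≤ k) {S : Finset V} {t : Fin k → V}
    (ht : Function.Injective t) (htS : ∀ i, t i ∈ S) {c : Fin k} {u : V} (hut : ∀ j, u ≠ t j)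
    (huS : u ∈ S) (hvu : G.Adj (t c) u) {P' : Fin k → List V}
    (hP : Sol G (S.erase (t c)) (Function.update t c u) P')
    (hInd : ∀ i, Ind G (Function.update t c u i :: (P' i ++ [Function.update t c u (i + 1)])))
    (hcl : ∀ x ∈ cn G S (t c), ∀ y ∈ cn G S (t c), x ≠ y → G.Adj x y)
    (h2 : t (c + 1 + 1) ∈ cn G S (t c)) (hne : ¬ G.Adj (t (c + 1)) (t (c + 1 + 1)))
    (hsub : cn G S u ⊆ cn G S (t (c + 1 + 1)))
    (hx : ∃ x ∈ P' (c + 1), x ∈ cn G S (t c)) : ∃ P, Sol G S t P := by
  have h01 : (1 : Fin k) ≠ 0 := by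
    intro h
    have h2 := congrArg Fin.val h
    rw [Fin.val_one', Nat.mod_eq_of_lt (by omega)] at h2
    simp at h2
  have h02 : (1 + 1 : Fin k) ≠ 0 := by
    intro h
    have h2 := congrArg Fin.val h
    rw [Fin.val_add, Fin.val_one', Nat.mod_eq_of_lt (show 1 < k by omega),
      Nat.mod_eq_of_lt (show 1 + 1 < k by omega)] at h2
    simp at h2
  have c1 : c + 1 ≠ c := fun h => h01 (add_eq_left.1 h)
  have c2 : c + 1 + 1 ≠ c := by
    intro h
    rw [add_assoc] at h
    exact h02 (add_eq_left.1 h)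
  have cm : c - 1 ≠ c := fun h => h01 (sub_eq_self.1 h)
  have cm1 : c + 1 ≠ c - 1 := fun h => c2 (by rw [h, sub_add_cancel])
  obtain ⟨g1, g2, g3, g4⟩ := hP
  have hA : ∀ i, ∀ x ∈ P' i, x ∈ S ∧ (∀ j, x ≠ t j) ∧ x ≠ u := by
    intro i x hx
    obtain ⟨h1, h2⟩ := g4 i x hx
    refine ⟨Finset.mem_of_mem_erase h1, fun j => ?_, ?_⟩
    · by_cases hj : j = c
      · rw [hj]
        exact Finset.ne_of_mem_erase h1
      · have h3 := h2 j
        rwa [Function.update_of_ne hj] at h3
    · have h3 := h2 c
      rwa [Function.update_self] at h3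
  -- the three chains
  have k0 := g1 c
  rw [Function.update_self, Function.update_of_ne c1] at k0
  have k1 := g1 (c + 1)
  rw [Function.update_of_ne c1, Function.update_of_ne c2] at k1
  have km := g1 (c - 1)
  rw [Function.update_of_ne cm, sub_add_cancel, Function.update_self] at km
  -- the last element of the path `c + 1`
  obtain ⟨x, hxP, hxN⟩ := hx
  obtain ⟨hxS, hxt, hxu⟩ := hA _ x hxP
  have hvx : G.Adj (t c) x := (mem_cn.1 hxN).2.resolve_left (hxt c)
  have hxw : G.Adj x (t (c + 1 + 1)) := hcl x hxN _ h2 (hxt _)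
  have hI := hInd (c + 1)
  rw [Function.update_of_ne c1, Function.update_of_ne c2] at hI
  obtain ⟨R, hR⟩ := ind_last hI hxP hxw
  have n0 : (t c :: ((P' (c + 1)).reverse ++ [t (c + 1)])).IsChain G.Adj := by
    rw [hR] at k1 ⊢
    exact csa_rev (stp_snoc (stp_init k1) hvx.symm)
  -- the first element of the path `c`
  have hz : ∃ z R', P' c = z :: R' := by
    rcases hPc : P' c with _ | ⟨z, R'⟩
    · exfalso
      rw [hPc] at k0
      have h3 : G.Adj u (t (c + 1)) := by simpa using k0
      have h4 : t (c + 1) ∈ cn G S u := mem_cn.2 ⟨htS _, Or.inr h3⟩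
      rcases (mem_cn.1 (hsub h4)).2 with h5 | h5
      · exact h01 (add_eq_left.1 (ht h5).symm)
      · exact hne h5.symm
    · exact ⟨z, R', rfl⟩
  obtain ⟨z, R', hzR⟩ := hz
  have hzP : z ∈ P' c := by rw [hzR]; exact List.mem_cons_self
  obtain ⟨hzS, hzt, hzu⟩ := hA _ z hzP
  have huz : G.Adj u z ∧ (z :: (R' ++ [t (c + 1)])).IsChain G.Adj := by
    rw [hzR] at k0
    simpa using k0
  have hwz : G.Adj (t (c + 1 + 1)) z :=
    (mem_cn.1 (hsub (mem_cn.2 ⟨hzS, Or.inr huz.1⟩))).2.resolve_left (hzt _)
  have n1 : (t (c + 1) :: ((P' c).reverse ++ [t (c + 1 + 1)])).IsChain G.Adj := by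
    apply csa_rev
    rw [hzR, List.cons_append, List.isChain_cons_cons]
    exact ⟨hwz, huz.2⟩
  have nm : (t (c - 1) :: ((P' (c - 1) ++ [u]) ++ [t c])).IsChain G.Adj := stp_snoc km hvu.symm
  -- the new solution
  obtain ⟨P, hPd⟩ : ∃ P : Fin k → List V, P = fun i => if i = c then (P' (c + 1)).reverse else
      if i = c + 1 then (P' c).reverse else if i = c - 1 then P' (c - 1) ++ [u] else P' i := ⟨_, rfl⟩
  have e0 : P c = (P' (c + 1)).reverse := by rw [hPd]; simp
  have e1 : P (c + 1) = (P' c).reverse := by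
    rw [hPd]
    simp only [if_neg c1, if_true]
  have em : P (c - 1) = P' (c - 1) ++ [u] := by
    rw [hPd]
    simp only [if_neg cm, if_neg cm1.symm, if_true]
  have eo : ∀ i, i ≠ c → i ≠ c + 1 → i ≠ c - 1 → P i = P' i := by
    intro i a b d
    rw [hPd]
    simp only [if_neg a, if_neg b, if_neg d]
  obtain ⟨σ, hσ⟩ : ∃ σ : Equiv.Perm (Fin k), σ = Equiv.swap c (c + 1) := ⟨_, rfl⟩
  have key : ∀ i y, y ∈ P i → y ∈ P' (σ i) ∨ (i = c - 1 ∧ y = u) := by
    intro i y hy
    by_cases a : i = c
    · subst a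
      rw [e0, List.mem_reverse] at hy
      rw [hσ, Equiv.swap_apply_left]
      exact Or.inl hy
    · by_cases b : i = c + 1
      · subst b
        rw [e1, List.mem_reverse] at hy
        rw [hσ, Equiv.swap_apply_right]
        exact Or.inl hy
      · rw [hσ, Equiv.swap_apply_of_ne_of_ne a b]
        by_cases d : i = c - 1
        · rw [d, em, List.mem_append, List.mem_singleton] at hy
          rcases hy with hy | hy
          · rw [d]
            exact Or.inl hy
          · exact Or.inr ⟨d, hy⟩
        · rw [eo i a b d] at hy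
          exact Or.inl hy
  refine ⟨P, ?_, ?_, ?_, ?_⟩
  · intro i
    by_cases a : i = c
    · rw [a, e0]
      exact n0
    · by_cases b : i = c + 1
      · rw [b, e1]
        exact n1
      · by_cases d : i = c - 1
        · rw [d, em, sub_add_cancel]
          exact nm
        · rw [eo i a b d]
          have h3 := g1 i
          rw [Function.update_of_ne a, Function.update_of_ne (fun h => d (eq_sub_of_add_eq h))] at h3
          exact h3
  · intro i
    by_cases a : i = c
    · rw [a, e0]
      exact List.nodup_reverse.2 (g2 _)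
    · by_cases b : i = c + 1
      · rw [b, e1]
        exact List.nodup_reverse.2 (g2 _)
      · by_cases d : i = c - 1
        · rw [d, em, List.nodup_append]
          refine ⟨g2 _, List.nodup_singleton _, ?_⟩
          intro y hy z hz
          rw [List.mem_singleton] at hz
          rw [hz]
          exact (hA _ y hy).2.2
        · rw [eo i a b d]
          exact g2 i
  · intro i j hij y hy hy'
    rcases key i y hy with h3 | ⟨h3, h3'⟩
    · rcases key j y hy' with h4 | ⟨h4, h4'⟩
      · exact g3 (σ i) (σ j) (fun h => hij (σ.injective h)) y h3 h4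
      · exact (hA _ y h3).2.2 h4'
    · rcases key j y hy' with h4 | ⟨h4, h4'⟩
      · exact (hA _ y h4).2.2 h3'
      · exact hij (h3.trans h4.symm)
  · intro i y hy
    rcases key i y hy with h3 | ⟨h3, h3'⟩
    · exact ⟨(hA _ y h3).1, (hA _ y h3).2.1⟩
    · rw [h3']
      exact ⟨huS, hut⟩
-- END row csa

-- BEGIN row csb
/-- Case B. `d` = the `j ∈ Q`, `j ≠ c` with the smallest `cn (t j)` (`Finset.exists_min_image`); by `hv`
and `hnu`, `cn (t d) ⊆ cn y` for all `y ∈ cn (t c)`, `y ≠ t c` (`y = t j`, `j ∈ Q`; or `y` is not a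
terminal: `cn (t d) ⊆ cn (t (c + 1 + 1)) ⊆ cn u ⊆ cn y`). A terminal `t j`, `j ∉ Q`, is not in
`cn (t d)`: `j + 1` and `j - 1` are in `Q`, different (`k ≥ 3`), so one of them, `i`, is not `c`, and
`t j ∈ cn (t i)` contradicts `hbad`. `U = S` minus terminals, `Y = {x ∈ U | x ∈ N(t c) ∪ N(t d)}`,
`X = {x ∈ U | G.Adj (t c) x}`, `|X| ≥ k - 1` because `|cn (t c)| > 3 k / 2 - 2` (`msep_deg`) and
`cn (t c)` is `X` and the `k / 2` terminals `t j`, `j ∈ Q`. `fam_or_cut`, `no_cut`, `fam_norm`,
`fam_fin`. -/
theorem case_B [Fintype V] {G : SimpleGraph V} {k : ℕ} [NeZero k] (hk : 4 ≤ k) (hev : Even k)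
    {S : Finset V} (hS : MSep G (3 * k / 2 - 2) S) {t : Fin k → V} (ht : Function.Injective t)
    (htS : ∀ i, t i ∈ S) {c : Fin k} (hv : Simp G S (t c)) {Q : Finset (Fin k)}
    (hQ : ∀ i, i ∈ Q ↔ i + 1 ∉ Q) (hQc : Q.card = k / 2) (hc : c ∈ Q)
    (hQN : ∀ i, t i ∈ cn G S (t c) ↔ i ∈ Q) (hbad : ∀ i, ¬ G.Adj (t i) (t (i + 1))) {u : V}
    (huN : u ∈ cn G S (t c))
    (hmin : ∀ y ∈ cn G S (t c), (∀ j, y ≠ t j) → cn G S u ⊆ cn G S y)
    (hnu : ¬ cn G S u ⊆ cn G S (t (c + 1 + 1))) : ∃ P, Sol G S t P := by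
  classical
  have hone : ∀ i : Fin k, i + 1 ≠ i := by
    intro i h
    have h1 : (1 : Fin k) = 0 := by simpa using h
    have h3 := congrArg Fin.val h1
    rw [Fin.val_one', Fin.val_zero, Nat.mod_eq_of_lt (by omega)] at h3
    exact one_ne_zero h3
  have htwo : ∀ i : Fin k, i + 1 + 1 ≠ i := by
    intro i h
    have h1 : (1 : Fin k) + 1 = 0 := by
      have h2 : i + (1 + 1) = i := by rw [← add_assoc]; exact h
      simpa using h2
    have h3 := congrArg Fin.val h1
    rw [Fin.val_add, Fin.val_one', Fin.val_zero, Nat.mod_eq_of_lt (show 1 < k by omega),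
      Nat.mod_eq_of_lt (show 1 + 1 < k by omega)] at h3
    omega
  have hc2 : c + 1 + 1 ∈ Q := by
    by_contra h
    exact (hQ c).1 hc ((hQ (c + 1)).2 h)
  -- the smallest neighbourhood
  obtain ⟨d, hdQ, hdmin⟩ := Finset.exists_min_image (Q.erase c) (fun j => (cn G S (t j)).card)
    ⟨c + 1 + 1, Finset.mem_erase.2 ⟨htwo c, hc2⟩⟩
  have hdc : d ≠ c := (Finset.mem_erase.1 hdQ).1
  have hd : d ∈ Q := (Finset.mem_erase.1 hdQ).2
  have hsubj : ∀ j ∈ Q, j ≠ c → cn G S (t d) ⊆ cn G S (t j) := by
    intro j hj hjc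
    rcases hv (t d) ((hQN d).2 hd) (t j) ((hQN j).2 hj) with h | h
    · exact h
    · exact (Finset.eq_of_subset_of_card_le h (hdmin j (Finset.mem_erase.2 ⟨hjc, hj⟩))).symm.subset
  have hsuby : ∀ y ∈ cn G S (t c), (∀ j, y ≠ t j) → cn G S (t d) ⊆ cn G S y := by
    intro y hy hyt
    have h1 := hsubj (c + 1 + 1) hc2 (htwo c)
    have h2 : cn G S (t (c + 1 + 1)) ⊆ cn G S u :=
      (hv u huN (t (c + 1 + 1)) ((hQN _).2 hc2)).resolve_left hnu
    exact (h1.trans h2).trans (hmin y hy hyt)
  have hcn : ∀ j, j ∉ Q → ¬ G.Adj (t c) (t j) := by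
    intro j hj hadj
    exact hj ((hQN j).1 (mem_cn.2 ⟨htS j, Or.inr hadj⟩))
  have hdn : ∀ j, j ∉ Q → ¬ G.Adj (t d) (t j) := by
    intro j hj hadj
    have hmem : t j ∈ cn G S (t d) := mem_cn.2 ⟨htS j, Or.inr hadj⟩
    have hj1 : j + 1 ∈ Q := by
      by_contra h
      exact hj ((hQ j).2 h)
    have hj2 : j - 1 ∈ Q := by
      rw [hQ (j - 1), sub_add_cancel]
      exact hj
    by_cases h : j + 1 = c
    · have hne : j - 1 ≠ c := by
        intro h'
        have h3 : j + 1 = j - 1 := h.trans h'.symm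
        have h4 := congrArg (· + 1) h3
        simp only [sub_add_cancel] at h4
        exact htwo j h4
      have h5 := (mem_cn.1 (hsubj (j - 1) hj2 hne hmem)).2
      rcases h5 with h5 | h5
      · have h6 := congrArg (· + 1) (ht h5)
        simp only [sub_add_cancel] at h6
        exact hone j h6
      · have h6 := hbad (j - 1)
        rw [sub_add_cancel] at h6
        exact h6 h5
    · have h5 := (mem_cn.1 (hsubj (j + 1) hj1 h hmem)).2
      rcases h5 with h5 | h5
      · exact hone j (ht h5).symm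
      · exact hbad j h5.symm
  let U : Finset V := S.filter (fun x => ∀ j, x ≠ t j)
  let Y : Finset V := U.filter (fun x => G.Adj (t c) x ∨ G.Adj (t d) x)
  let X : Finset V := U.filter (fun x => G.Adj (t c) x)
  have hU : ∀ x, x ∈ U ↔ x ∈ S ∧ ∀ j, x ≠ t j := fun x => Finset.mem_filter
  have hY : ∀ x, x ∈ Y ↔ x ∈ U ∧ (G.Adj (t c) x ∨ G.Adj (t d) x) := fun x => Finset.mem_filter
  have hX : ∀ x, x ∈ X ↔ x ∈ U ∧ G.Adj (t c) x := fun x => Finset.mem_filter
  have hYU : Y ⊆ U := Finset.filter_subset _ _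
  have hXY : X ⊆ Y := fun x hx => (hY x).2 ⟨((hX x).1 hx).1, Or.inl ((hX x).1 hx).2⟩
  have hXk : k ≤ X.card + 1 := by
    have h1 := msep_deg hS (htS c)
    have h2 : cn G S (t c) ⊆ X ∪ Q.image t := by
      intro z hz
      rw [Finset.mem_union, Finset.mem_image]
      by_cases hzt : ∃ j, z = t j
      · obtain ⟨j, rfl⟩ := hzt
        exact Or.inr ⟨j, (hQN j).1 hz, rfl⟩
      · push Not at hzt
        left
        obtain ⟨h3, h4⟩ := mem_cn.1 hz
        exact (hX z).2 ⟨(hU z).2 ⟨h3, hzt⟩, h4.resolve_left (hzt c)⟩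
    have h3 := (Finset.card_le_card h2).trans (Finset.card_union_le _ _)
    have h4 : (Q.image t).card ≤ Q.card := Finset.card_image_le
    obtain ⟨m, hm⟩ := hev
    omega
  have hmemc : ∀ x ∈ U, G.Adj (t c) x → x ∈ cn G S (t c) := fun x hx hadj =>
    mem_cn.2 ⟨((hU x).1 hx).1, Or.inr hadj⟩
  have hmemd : ∀ x ∈ U, G.Adj (t d) x → x ∈ cn G S (t d) := fun x hx hadj =>
    mem_cn.2 ⟨((hU x).1 hx).1, Or.inr hadj⟩
  have hYQ : ∀ y ∈ Y, ∀ j ∈ Q, j ≠ c → G.Adj (t j) y := by
    intro y hy j hj hjc
    obtain ⟨hyU, hy2⟩ := (hY y).1 hy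
    have hyt := ((hU y).1 hyU).2 j
    rcases hy2 with h | h
    · exact simp_clique hv ((hQN j).2 hj) (hmemc y hyU h) (Ne.symm hyt)
    · exact (mem_cn.1 (hsubj j hj hjc (hmemd y hyU h))).2.resolve_left hyt
  have hXadj : ∀ x ∈ X, ∀ y ∈ Y, x ≠ y → G.Adj x y := by
    intro x hx y hy hxy
    obtain ⟨hxU, hx2⟩ := (hX x).1 hx
    obtain ⟨hyU, hy2⟩ := (hY y).1 hy
    rcases hy2 with h | h
    · exact simp_clique hv (hmemc x hxU hx2) (hmemc y hyU h) hxy
    · have h1 := hsuby x (hmemc x hxU hx2) ((hU x).1 hxU).2 (hmemd y hyU h)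
      exact (mem_cn.1 h1).2.resolve_left (Ne.symm hxy)
  rcases fam_or_cut (G := G) hYU (fun i : Fin k => if i ∈ Q then t (i + 1) else t i) with hF | hcut
  · obtain ⟨s, l, hF', n1, n2⟩ := fam_norm (X := X) hk hQ hc hF
    exact fam_fin hk hQ hc hU hYU hXY hXk (fun x hx => ((hX x).1 hx).2) hYQ hXadj hF' n1 n2
  · obtain ⟨C, R, J, hCU, hRU, hCR, hcard, hYC, hcl, hR⟩ := hcut
    exact (no_cut (by omega) hev hS ht htS hQ hQc hc hd hdc.symm hcn hdn hU hY hCU hRU hCR hcard hYC hcl hR).elim
-- END row csb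

-- BEGIN row ste
/-- The induction step for even `k` (as `step`, with the tight case at the end). -/
theorem step_even [Fintype V] {G : SimpleGraph V} {k : ℕ} [NeZero k] (hk4 : 4 ≤ k) (hev : Even k)
    {S : Finset V} (hS : MSep G (3 * k / 2 - 2) S) {t : Fin k → V} (ht : Function.Injective t)
    (htS : ∀ i, t i ∈ S) (c : Fin k) (hv : Simp G S (t c))
    (ih : ∀ t' : Fin k → V, Function.Injective t' → (∀ i, t' i ∈ S.erase (t c)) →
      ∃ P, Sol G (S.erase (t c)) t' P) : ∃ P, Sol G S t P := by
  classical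
  have hk : 3 ≤ k := by omega
  have h1 : (1 : Fin k) ≠ 0 := by
    intro h
    have h2 := congrArg Fin.val h
    rw [Fin.val_one', Nat.mod_eq_of_lt (by omega)] at h2
    exact absurd h2 (by simp)
  have hc1 : c + 1 ≠ c := fun h => h1 (by rwa [add_eq_left] at h)
  have hc2 : c - 1 ≠ c := fun h => h1 (by rwa [sub_eq_self] at h)
  have hcc : c - 1 + 1 = c := sub_add_cancel c 1
  have hN : 3 * k / 2 - 2 < (cn G S (t c)).card := msep_deg hS (htS c)
  have hcard := stp_card (G := G) (S := S) (t := t) (t c)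
  have hQk : (Finset.univ.filter (fun i => t i ∈ cn G S (t c))).card ≤ k := by
    have := Finset.card_le_univ (Finset.univ.filter (fun i => t i ∈ cn G S (t c)))
    rwa [Fintype.card_fin] at this
  have hinj : ∀ u, (∀ j, u ≠ t j) → Function.Injective (Function.update t c u) := by
    intro u hu i j hij
    by_cases hi : i = c <;> by_cases hj : j = c
    · rw [hi, hj]
    · rw [hi, Function.update_self, Function.update_of_ne hj] at hij
      exact absurd hij (hu j)
    · rw [hj, Function.update_self, Function.update_of_ne hi] at hij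
      exact absurd hij.symm (hu i)
    · rw [Function.update_of_ne hi, Function.update_of_ne hj] at hij
      exact ht hij
  have hsolve : ∀ u ∈ stp_F G S t (t c), ∃ P, Sol G (S.erase (t c)) (Function.update t c u) P := by
    intro u hu
    obtain ⟨huS, _, hut, _⟩ := stp_mem hu
    refine ih _ (hinj u hut) fun i => ?_
    by_cases hi : i = c
    · rw [hi, Function.update_self, Finset.mem_erase]
      exact ⟨hut c, huS⟩
    · rw [Function.update_of_ne hi, Finset.mem_erase]
      exact ⟨fun h => hi (ht h), htS i⟩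
  have hFne : (stp_F G S t (t c)).Nonempty := by
    rw [← Finset.card_pos]
    omega
  -- facts on the solutions
  have hup1 : ∀ u, Function.update t c u (c + 1) = t (c + 1) := fun u => Function.update_of_ne hc1 _ _
  have hup2 : ∀ u, Function.update t c u (c - 1) = t (c - 1) := fun u => Function.update_of_ne hc2 _ _
  have hup0 : ∀ u, Function.update t c u c = u := fun u => Function.update_self _ _ _
  have hXc : ∀ u P', Sol G (S.erase (t c)) (Function.update t c u) P' →
      (u :: (P' c ++ [t (c + 1)])).IsChain G.Adj := by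
    intro u P' hP
    have h := hP.1 c
    rwa [hup0, hup1] at h
  have hYc : ∀ u P', Sol G (S.erase (t c)) (Function.update t c u) P' →
      (t (c - 1) :: (P' (c - 1) ++ [u])).IsChain G.Adj := by
    intro u P' hP
    have h := hP.1 (c - 1)
    rwa [hup2, hcc, hup0] at h
  have huP : ∀ u P', Sol G (S.erase (t c)) (Function.update t c u) P' → ∀ j, u ∉ P' j := by
    intro u P' hP j hu
    have h := (hP.2.2.2 j u hu).2 c
    rw [hup0] at h
    exact h rfl
  have hAdj : ∀ j, j ≠ c → t j ∈ cn G S (t c) → G.Adj (t c) (t j) := fun j hj h =>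
    (mem_cn.1 h).2.resolve_left fun he => hj (ht he)
  have hX : ∀ u ∈ stp_F G S t (t c), ∀ P', Sol G (S.erase (t c)) (Function.update t c u) P' →
      (t c :: ((u :: P' c) ++ [t (c + 1)])).IsChain G.Adj := by
    intro u hu P' hP
    rw [List.cons_append, List.isChain_cons_cons]
    exact ⟨(stp_mem hu).2.1, hXc u P' hP⟩
  have hY : ∀ u ∈ stp_F G S t (t c), ∀ P', Sol G (S.erase (t c)) (Function.update t c u) P' →
      (t (c - 1) :: ((P' (c - 1) ++ [u]) ++ [t c])).IsChain G.Adj := fun u hu P' hP =>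
    stp_snoc (hYc u P' hP) (stp_mem hu).2.1.symm
  have hnil : ∀ a b, G.Adj a b → (a :: (([] : List V) ++ [b])).IsChain G.Adj := by
    intro a b hab
    rw [List.nil_append, List.isChain_cons_cons]
    exact ⟨hab, by simp⟩
  have hYn : ∀ u P', Sol G (S.erase (t c)) (Function.update t c u) P' → (P' (c - 1) ++ [u]).Nodup := by
    intro u P' hP
    rw [List.nodup_append]
    refine ⟨hP.2.1 _, by simp, ?_⟩
    intro x hx y hy
    rw [List.mem_singleton] at hy
    subst hy
    rintro rfl
    exact huP x P' hP _ hx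
  have hXn : ∀ u P', Sol G (S.erase (t c)) (Function.update t c u) P' → (u :: P' c).Nodup := by
    intro u P' hP
    rw [List.nodup_cons]
    exact ⟨huP u P' hP c, hP.2.1 c⟩
  by_cases hA : t (c + 1) ∈ cn G S (t c)
  · obtain ⟨u, hu⟩ := hFne
    obtain ⟨P', hP⟩ := hsolve u hu
    obtain ⟨huS, _, hut, _⟩ := stp_mem hu
    by_cases hB : t (c - 1) ∈ cn G S (t c)
    · exact replace hk ht hut huS hP [] [] (hnil _ _ (hAdj _ hc1 hA)) (hnil _ _ (hAdj _ hc2 hB).symm)
        (by simp) (by simp) (by simp) (by simp) (by simp)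
    · refine replace hk ht hut huS hP [] (P' (c - 1) ++ [u]) (hnil _ _ (hAdj _ hc1 hA)) (hY u hu P' hP)
        (by simp) (hYn u P' hP) (by simp) (by simp) ?_
      intro x hx
      rw [List.mem_append, List.mem_singleton] at hx
      rcases hx with hx | rfl
      · exact Or.inl hx
      · exact Or.inr ⟨huS, hut, huP x P' hP⟩
  · by_cases hB : t (c - 1) ∈ cn G S (t c)
    · obtain ⟨u, hu⟩ := hFne
      obtain ⟨P', hP⟩ := hsolve u hu
      obtain ⟨huS, _, hut, _⟩ := stp_mem hu
      refine replace hk ht hut huS hP (u :: P' c) [] (hX u hu P' hP) (hnil _ _ (hAdj _ hc2 hB).symm)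
        (hXn u P' hP) (by simp) (by simp) ?_ (by simp)
      intro x hx
      rw [List.mem_cons] at hx
      rcases hx with rfl | hx
      · exact Or.inr ⟨huS, hut, huP x P' hP⟩
      · exact Or.inl hx
    · -- the main case
      obtain ⟨u, hu, hmin⟩ := Finset.exists_min_image (stp_F G S t (t c)) (fun x => (cn G S x).card) hFne
      obtain ⟨huS, hvu, hut, huN⟩ := stp_mem hu
      have hsub : ∀ u' ∈ stp_F G S t (t c), cn G S u ⊆ cn G S u' := by
        intro u' hu'
        rcases hv u huN u' (stp_mem hu').2.2.2 with h | h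
        · exact h
        · rw [Finset.eq_of_subset_of_card_le h (hmin u' hu')]
      obtain ⟨P', hP, hInd⟩ := min_sol (hsolve u hu)
      have hXm : ∀ x ∈ u :: P' c, x ∈ P' c ∨ (x ∈ S ∧ (∀ j, x ≠ t j) ∧ ∀ j, x ∉ P' j) := by
        intro x hx
        rw [List.mem_cons] at hx
        rcases hx with rfl | hx
        · exact Or.inr ⟨huS, hut, huP x P' hP⟩
        · exact Or.inl hx
      have hYm : ∀ x ∈ P' (c - 1) ++ [u], x ∈ P' (c - 1) ∨ (x ∈ S ∧ (∀ j, x ≠ t j) ∧ ∀ j, x ∉ P' j) := by
        intro x hx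
        rw [List.mem_append, List.mem_singleton] at hx
        rcases hx with hx | rfl
        · exact Or.inl hx
        · exact Or.inr ⟨huS, hut, huP x P' hP⟩
      have hdis : ∀ x ∈ P' c, x ∉ P' (c - 1) := fun x hx => hP.2.2.1 c (c - 1) hc2.symm x hx
      have hmem : ∀ j, ∀ x ∈ P' j, x ∈ cn G S (t c) → x ≠ u ∧ G.Adj (t c) x := by
        intro j x hx hxN
        refine ⟨fun h => huP u P' hP j (h ▸ hx), ?_⟩
        refine (mem_cn.1 hxN).2.resolve_left fun h => ?_
        exact (Finset.mem_erase.1 (hP.2.2.2 j x hx).1).1 h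
      by_cases hi : ∃ x ∈ P' c, x ∈ cn G S (t c)
      · obtain ⟨x, hx, hxN⟩ := hi
        obtain ⟨hxu, hvx⟩ := hmem c x hx hxN
        have hux : G.Adj u x := simp_clique hv huN hxN hxu.symm
        have hI := hInd c
        rw [hup0, hup1] at hI
        obtain ⟨R, hR⟩ := ind_head hI hx hux
        refine replace hk ht hut huS hP (P' c) (P' (c - 1) ++ [u]) ?_ (hY u hu P' hP) (hP.2.1 c) (hYn u P' hP) ?_
          (fun x hx => Or.inl hx) hYm
        · have h := hXc u P' hP
          rw [hR, List.cons_append, List.isChain_cons_cons] at h ⊢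
          exact ⟨hvx, h.2⟩
        · intro y hy hy2
          rw [List.mem_append, List.mem_singleton] at hy2
          rcases hy2 with h | h
          · exact hdis y hy h
          · exact huP u P' hP c (h ▸ hy)
      · by_cases hii : ∃ x ∈ P' (c - 1), x ∈ cn G S (t c)
        · obtain ⟨x, hx, hxN⟩ := hii
          obtain ⟨hxu, hvx⟩ := hmem (c - 1) x hx hxN
          have hux : G.Adj x u := simp_clique hv hxN huN hxu
          have hI := hInd (c - 1)
          rw [hup2, hcc, hup0] at hI
          obtain ⟨R, hR⟩ := ind_last hI hx hux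
          refine replace hk ht hut huS hP (u :: P' c) (P' (c - 1)) (hX u hu P' hP) ?_ (hXn u P' hP) (hP.2.1 _) ?_
            hXm (fun x hx => Or.inl hx)
          · have h := stp_init (hYc u P' hP)
            rw [hR] at h ⊢
            exact stp_snoc h hvx.symm
          · intro y hy hy2
            rw [List.mem_cons] at hy
            rcases hy with h | h
            · exact huP u P' hP _ (h ▸ hy2)
            · exact hdis y h hy2
        · push Not at hi hii
          -- the count
          have hcBm : c ∈ Finset.univ.filter (fun i => ¬ G.Adj (t i) (t (i + 1))) :=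
            Finset.mem_filter.2 ⟨Finset.mem_univ _, fun h => hA (mem_cn.2 ⟨htS _, Or.inr h⟩)⟩
          have hcBm' : c - 1 ∈ Finset.univ.filter (fun i => ¬ G.Adj (t i) (t (i + 1))) :=
            Finset.mem_filter.2 ⟨Finset.mem_univ _, fun h => hB (by
              rw [hcc] at h
              exact mem_cn.2 ⟨htS _, Or.inr h.symm⟩)⟩
          have hgood : ∀ i, i ∉ Finset.univ.filter (fun i => ¬ G.Adj (t i) (t (i + 1))) → P' i = [] := by
              intro i hiB
              rw [Finset.mem_filter, not_and_not_right] at hiB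
              have hadj := hiB (Finset.mem_univ _)
              have hic : i ≠ c := by
                rintro rfl
                exact hA (mem_cn.2 ⟨htS _, Or.inr hadj⟩)
              have hic1 : i + 1 ≠ c := by
                intro h
                rw [h] at hadj
                have h2 : i = c - 1 := eq_sub_of_add_eq h
                rw [h2] at hadj
                exact hB (mem_cn.2 ⟨htS _, Or.inr hadj.symm⟩)
              by_contra hne
              have h := hInd i [] (Function.update t c u i) (P' i) (Function.update t c u (i + 1)) [] rfl hne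
              rw [Function.update_of_ne hic, Function.update_of_ne hic1] at h
              exact h hadj
          have hone : ∀ i, i ≠ c → i ≠ c - 1 → ((P' i).toFinset ∩ cn G S (t c)).card ≤ 1 := by
              intro i hic hic1
              have hic2 : i + 1 ≠ c := fun h => hic1 (eq_sub_of_add_eq h)
              have hchain := hP.1 i
              have hIi := hInd i
              rw [Function.update_of_ne hic, Function.update_of_ne hic2] at hchain hIi
              have hii1 : i ≠ i + 1 := fun h => h1 (by rwa [left_eq_add] at h)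
              have hPi : ∀ x ∈ P' i, x ≠ t i ∧ x ≠ t (i + 1) ∧ x ∈ S := by
                intro x hx
                have h := hP.2.2.2 i x hx
                have ha := h.2 i
                have hb := h.2 (i + 1)
                rw [Function.update_of_ne hic] at ha
                rw [Function.update_of_ne hic2] at hb
                exact ⟨ha, hb, Finset.mem_of_mem_erase h.1⟩
              refine ind_one hchain ?_ hIi ?_ _ (fun x hx y hy => hv x hx y hy)
              · rw [List.nodup_cons, List.nodup_append]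
                refine ⟨?_, hP.2.1 i, by simp, ?_⟩
                · rw [List.mem_append, List.mem_singleton, not_or]
                  exact ⟨fun h => (hPi _ h).1 rfl, fun h => hii1 (ht h)⟩
                · intro x hx y hy
                  rw [List.mem_singleton] at hy
                  rw [hy]
                  exact (hPi x hx).2.1
              · intro z hz
                rw [List.mem_cons, List.mem_append, List.mem_singleton] at hz
                rcases hz with h | h | h
                · rw [h]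
                  exact htS i
                · exact (hPi z h).2.2
                · rw [h]
                  exact htS _
          have hused := card_used (G := G) hk (S := S) (N := cn G S (t c)) (t := t) (P := P') (c := c) (u := u)
            (Finset.univ.filter (fun i => ¬ G.Adj (t i) (t (i + 1)))) hcBm hcBm' hgood hone hi hii
          have hQB : ∀ i ∈ Finset.univ.filter (fun i => t i ∈ cn G S (t c)),
              i + 1 ∈ Finset.univ.filter (fun i => t i ∈ cn G S (t c)) →
              i ∉ Finset.univ.filter (fun i => ¬ G.Adj (t i) (t (i + 1))) := by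
            intro i hi1 hi2 hi3
            rw [Finset.mem_filter] at hi1 hi2 hi3
            have hii1 : i ≠ i + 1 := fun h => h1 (by rwa [left_eq_add] at h)
            exact hi3.2 (simp_clique hv hi1.2 hi2.2 fun h => hii1 (ht h))
          have hBpos : 0 < (Finset.univ.filter (fun i => ¬ G.Adj (t i) (t (i + 1)))).card :=
            Finset.card_pos.2 ⟨c, hcBm⟩
          by_cases hlt : (insert u (Finset.univ.biUnion (fun i => (P' i).toFinset ∩ cn G S (t c)))).card <
              (stp_F G S t (t c)).card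
          swap
          · -- the tight case
            push Not at hlt
            have hkm : k + k / 2 = 3 * k / 2 := by
              obtain ⟨j, rfl⟩ := hev
              omega
            obtain ⟨hQc, hBu, hQ⟩ := alt_cnt hev _ _ hQB (by omega)
            have hbad : ∀ i, ¬ G.Adj (t i) (t (i + 1)) := by
              intro i
              have h : i ∈ Finset.univ.filter (fun i => ¬ G.Adj (t i) (t (i + 1))) := by
                rw [hBu]
                exact Finset.mem_univ i
              exact (Finset.mem_filter.1 h).2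
            have hcQ : c ∈ Finset.univ.filter (fun i => t i ∈ cn G S (t c)) :=
              Finset.mem_filter.2 ⟨Finset.mem_univ _, mem_cn.2 ⟨htS c, Or.inl rfl⟩⟩
            have hc1Q : c + 1 ∉ Finset.univ.filter (fun i => t i ∈ cn G S (t c)) := (hQ c).1 hcQ
            have hc2Q : c + 1 + 1 ∈ Finset.univ.filter (fun i => t i ∈ cn G S (t c)) := by
              by_contra h
              exact hc1Q ((hQ (c + 1)).2 h)
            by_cases hsubA : cn G S u ⊆ cn G S (t (c + 1 + 1))
            · have hcl : ∀ x ∈ cn G S (t c), ∀ y ∈ cn G S (t c), x ≠ y → G.Adj x y :=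
                fun x hx y hy hxy => simp_clique hv hx hy hxy
              refine case_A hk4 ht htS hut huS hvu hP hInd hcl (Finset.mem_filter.1 hc2Q).2
                (hbad (c + 1)) hsubA ?_
              by_contra hno
              push Not at hno
              have hused2 := card_used2 (G := G) hk (S := S) (N := cn G S (t c)) (t := t) (P := P')
                (c := c) (u := u) (Finset.univ.filter (fun i => ¬ G.Adj (t i) (t (i + 1)))) hcBm hcBm'
                (Finset.mem_filter.2 ⟨Finset.mem_univ _, hbad _⟩) hgood hone hi hii hno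
              have hcntB : (Finset.univ.filter (fun i => ¬ G.Adj (t i) (t (i + 1)))).card = k := by
                rw [hBu, Finset.card_univ, Fintype.card_fin]
              omega
            · refine case_B hk4 hev hS ht htS hv hQ hQc hcQ ?_ hbad huN ?_ hsubA
              · intro i
                rw [Finset.mem_filter]
                exact ⟨fun h => ⟨Finset.mem_univ _, h⟩, fun h => h.2⟩
              · intro y hy hyt
                refine hsub y ?_
                rw [stp_F, Finset.mem_sdiff]
                refine ⟨hy, fun h => ?_⟩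
                obtain ⟨j, _, hj⟩ := Finset.mem_image.1 h
                exact hyt j hj.symm
          obtain ⟨u', hu', hu'no⟩ := Finset.exists_mem_notMem_of_card_lt_card hlt
          obtain ⟨hu'S, hvu', hu't, hu'N⟩ := stp_mem hu'
          rw [Finset.mem_insert, not_or] at hu'no
          have hu'P : ∀ j, u' ∉ P' j := by
            intro j hj
            exact hu'no.2 (Finset.mem_biUnion.2 ⟨j, Finset.mem_univ _, Finset.mem_inter.2
              ⟨List.mem_toFinset.2 hj, hu'N⟩⟩)
          refine replace hk ht hut huS hP (u' :: P' c) (P' (c - 1) ++ [u]) ?_ (hY u hu P' hP) ?_ (hYn u P' hP) ?_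
            ?_ hYm
          · rw [List.cons_append, List.isChain_cons_cons]
            refine ⟨hvu', ?_⟩
            have h := hXc u P' hP
            have hmemS : ∀ z ∈ P' c ++ [t (c + 1)], z ∈ S ∧ z ≠ u' := by
              intro z hz
              rw [List.mem_append, List.mem_singleton] at hz
              rcases hz with hz | hz
              · exact ⟨Finset.mem_of_mem_erase (hP.2.2.2 c z hz).1, fun he => hu'P c (he ▸ hz)⟩
              · rw [hz]
                exact ⟨htS _, fun he => hu't _ he.symm⟩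
            generalize P' c ++ [t (c + 1)] = L at h hmemS
            cases L with
            | nil => simp
            | cons z L =>
              rw [List.isChain_cons_cons] at h ⊢
              obtain ⟨hzS, hzu'⟩ := hmemS z List.mem_cons_self
              have hz1 : z ∈ cn G S u := mem_cn.2 ⟨hzS, Or.inr h.1⟩
              exact ⟨(mem_cn.1 (hsub u' hu' hz1)).2.resolve_left hzu', h.2⟩
          · rw [List.nodup_cons]
            exact ⟨hu'P c, hP.2.1 c⟩
          · intro y hy hy2
            rw [List.mem_append, List.mem_singleton] at hy2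
            rw [List.mem_cons] at hy
            rcases hy with hy | hy
            · rw [hy] at hy2
              rcases hy2 with h | h
              · exact hu'P _ h
              · exact hu'no.1 h
            · rcases hy2 with h | h
              · exact hdis y hy h
              · exact huP u P' hP c (h ▸ hy)
          · intro x hx
            rw [List.mem_cons] at hx
            rcases hx with rfl | hx
            · exact Or.inr ⟨hu'S, hu't, hu'P⟩
            · exact Or.inl hx
-- END row ste

-- BEGIN row top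
/-- All solutions for even `k`, by induction on `|S|` (as `all_sol`). -/
theorem all_sol_even [Fintype V] {G : SimpleGraph V} (hG : StronglyChordal G) {k : ℕ} [NeZero k]
    (hk : 4 ≤ k) (hev : Even k)
    (n : ℕ) : ∀ S : Finset V, S.card = n → MSep G (3 * k / 2 - 2) S → ∀ t : Fin k → V,
      Function.Injective t → (∀ i, t i ∈ S) → ∃ P, Sol G S t P := by
  induction n with
  | zero =>
    intro S hS hM
    have := hM.1
    omega
  | succ n ih =>
    intro S hS hM t ht htS
    by_cases hle : S.card ≤ 3 * k / 2 - 2 + 1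
    · refine ⟨fun _ => [], ?_, ?_, ?_, ?_⟩
      · intro i
        have hne : i ≠ i + 1 := by
          intro h0
          have h1 : (1 : Fin k) = 0 := by
            have h2 : i + 0 = i + 1 := by rw [add_zero]; exact h0
            exact (add_left_cancel h2).symm
          have h3 := congrArg Fin.val h1
          rw [Fin.val_one', Fin.val_zero, Nat.mod_eq_of_lt (by omega)] at h3
          omega
        have hadj : G.Adj (t i) (t (i + 1)) :=
          msep_clique hM hle (htS i) (htS (i + 1)) (fun h0 => hne (ht h0))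
        simpa using hadj
      · intro i
        exact List.nodup_nil
      · intro i j _ x hx
        exact absurd hx List.not_mem_nil
      · intro i x hx
        exact absurd hx List.not_mem_nil
    · push Not at hle
      obtain ⟨v, hv, hsv⟩ := exists_simp hG S (Finset.card_pos.1 (by omega))
      have hM' : MSep G (3 * k / 2 - 2) (S.erase v) :=
        msep_erase hM hv (fun x hx y hy hxy => simp_clique hsv hx hy hxy) hle
      have hc' : (S.erase v).card = n := by
        rw [Finset.card_erase_of_mem hv, hS]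
        rfl
      by_cases hvt : ∃ c, t c = v
      · obtain ⟨c, rfl⟩ := hvt
        exact step_even hk hev hM ht htS c hsv (fun t' ht' htS' => ih _ hc' hM' t' ht' htS')
      · push Not at hvt
        obtain ⟨P, h1, h2, h3, h4⟩ := ih _ hc' hM' t ht
          (fun i => Finset.mem_erase.2 ⟨hvt i, htS i⟩)
        exact ⟨P, h1, h2, h3, fun i x hx => ⟨Finset.mem_of_mem_erase (h4 i x hx).1, (h4 i x hx).2⟩⟩

/-- The upper bound for all `k ≥ 3`. -/
theorem upper_all (k : ℕ) (hk : 3 ≤ k) (W : Type) [Fintype W] (G : SimpleGraph W)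
    (hG : StronglyChordal G) (hc : MConn ((3 * k - 3) / 2) G) : KOrdered k G := by
  classical
  rcases Nat.even_or_odd k with hev | hodd
  · have hk4 : 4 ≤ k := by
      obtain ⟨m, hm⟩ := hev
      omega
    have hm : (3 * k - 3) / 2 = 3 * k / 2 - 2 := by
      obtain ⟨m, hm⟩ := hev
      omega
    rw [hm] at hc
    have hz : NeZero k := ⟨by omega⟩
    intro v hv
    obtain ⟨P, h1, h2, h3, h4⟩ := all_sol_even hG hk4 hev _ Finset.univ rfl (msep_univ hc) v hv
      (fun i => Finset.mem_univ _)
    exact Kcb.exists_cycle_lists G k hk v hv P h1 h2 h3 (fun i x hx j => (h4 i x hx).2 j)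
  · have hm : (3 * k - 3) / 2 = 3 * k / 2 - 1 := by
      obtain ⟨m, hm⟩ := hodd
      omega
    rw [hm] at hc
    exact upper k hk W G hG hc
-- END row top

end Kci
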