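import Pool.Agent.Kci.Defs
import Pool.Agent.Kcg.Count

set_option autoImplicit false

namespace Kci

open Kcg

/-- The `r`-th power of the path `0, ..., k - 1`, and `u` more vertices adjacent to everything. -/
def pw (k r u : ℕ) : SimpleGraph (Fin k ⊕ Fin u) where
  Adj x y := x ≠ y ∧ ∀ i j : Fin k, x = Sum.inl i → y = Sum.inl j →
    (i : ℕ) ≤ j + r ∧ (j : ℕ) ≤ i + r
  symm := ⟨fun _ _ h => ⟨h.1.symm, fun i j hi hj => ⟨(h.2 j i hj hi).2, (h.2 j i hj hi).1⟩⟩⟩
  loopless := ⟨fun _ h => h.1 rfl⟩

-- BEGIN row lin
/-- Intervals `[i, i + r]` for `Sum.inl i` and `[0, k + r]` for the others. -/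
theorem pw_interval (k r u : ℕ) : IsInterval (pw k r u) := by
  refine ⟨fun v => Sum.elim (fun i : Fin k => ((i : ℕ) : ℝ)) (fun _ => 0) v,
    fun v => Sum.elim (fun i : Fin k => ((i : ℕ) : ℝ) + r) (fun _ => (k : ℝ) + r) v, ?_, ?_⟩
  · intro v
    have hr : (0 : ℝ) ≤ r := Nat.cast_nonneg r
    have hk : (0 : ℝ) ≤ k := Nat.cast_nonneg k
    rcases v with i | j
    · simp only [Sum.elim_inl]
      linarith
    · simp only [Sum.elim_inr]
      linarith
  · intro x y hxy
    have hr : (0 : ℝ) ≤ r := Nat.cast_nonneg r
    have hk : (0 : ℝ) ≤ k := Nat.cast_nonneg k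
    rcases x with i | i <;> rcases y with j | j
    · simp only [Sum.elim_inl]
      constructor
      · intro h
        have h1 := h.2 i j rfl rfl
        exact ⟨by exact_mod_cast h1.1, by exact_mod_cast h1.2⟩
      · intro h
        refine ⟨hxy, fun i' j' hi hj => ?_⟩
        cases hi
        cases hj
        exact ⟨by exact_mod_cast h.1, by exact_mod_cast h.2⟩
    · simp only [Sum.elim_inl, Sum.elim_inr]
      have hi : ((i : ℕ) : ℝ) ≤ k := by exact_mod_cast i.2.le
      have hi0 : (0 : ℝ) ≤ ((i : ℕ) : ℝ) := Nat.cast_nonneg _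
      constructor
      · intro _
        exact ⟨by linarith, by linarith⟩
      · intro _
        exact ⟨hxy, fun i' j' _ hj => by cases hj⟩
    · simp only [Sum.elim_inl, Sum.elim_inr]
      have hj : ((j : ℕ) : ℝ) ≤ k := by exact_mod_cast j.2.le
      have hj0 : (0 : ℝ) ≤ ((j : ℕ) : ℝ) := Nat.cast_nonneg _
      constructor
      · intro _
        exact ⟨by linarith, by linarith⟩
      · intro _
        exact ⟨hxy, fun i' j' hi _ => by cases hi⟩
    · simp only [Sum.elim_inr]
      constructor
      · intro _
        exact ⟨by linarith, by linarith⟩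
      · intro _
        exact ⟨hxy, fun i' j' hi _ => by cases hi⟩
-- END row lin

-- BEGIN row lcn
theorem lcn_reach {k r u : ℕ} {S : Finset (Fin k ⊕ Fin u)}
    (hD : (Finset.univ.filter (fun i : Fin k => Sum.inl i ∈ S)).card < r) (n : ℕ) :
    ∀ (i j : Fin k) (hi : Sum.inl i ∉ S) (hj : Sum.inl j ∉ S), (i : ℕ) ≤ j → (j : ℕ) ≤ i + n →
      ((pw k r u).induce {x | x ∉ S}).Reachable ⟨Sum.inl i, hi⟩ ⟨Sum.inl j, hj⟩ := by
  induction n with
  | zero =>
    intro i j hi hj h1 h2
    have h3 : i = j := Fin.ext (by omega)
    subst h3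
    exact SimpleGraph.Reachable.refl _
  | succ n ih =>
    intro i j hi hj h1 h2
    by_cases h3 : (j : ℕ) ≤ i + r
    · by_cases h4 : i = j
      · subst h4
        exact SimpleGraph.Reachable.refl _
      · apply SimpleGraph.Adj.reachable
        show (pw k r u).Adj (Sum.inl i) (Sum.inl j)
        refine ⟨fun h => h4 (Sum.inl.inj h), fun a b ha hb => ?_⟩
        have ha' := Sum.inl.inj ha
        have hb' := Sum.inl.inj hb
        subst ha' hb'
        exact ⟨by omega, h3⟩
    · have hex : ∃ l : Fin k, (i : ℕ) < l ∧ (l : ℕ) ≤ i + r ∧ Sum.inl l ∉ S := by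
        by_contra hno
        push Not at hno
        have hsub : Finset.Ioc (i : ℕ) (i + r) ⊆
            (Finset.univ.filter (fun i : Fin k => (Sum.inl i : Fin k ⊕ Fin u) ∈ S)).image Fin.val := by
          intro l hl
          rw [Finset.mem_Ioc] at hl
          rw [Finset.mem_image]
          have hlk : l < k := by
            have := j.2
            omega
          exact ⟨⟨l, hlk⟩, Finset.mem_filter.2 ⟨Finset.mem_univ _, hno ⟨l, hlk⟩ hl.1 hl.2⟩, rfl⟩
        have h5 := (Finset.card_le_card hsub).trans Finset.card_image_le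
        rw [Nat.card_Ioc] at h5
        omega
      obtain ⟨l, hl1, hl2, hl3⟩ := hex
      have h6 : ((pw k r u).induce {x | x ∉ S}).Reachable ⟨Sum.inl i, hi⟩ ⟨Sum.inl l, hl3⟩ := by
        apply SimpleGraph.Adj.reachable
        show (pw k r u).Adj (Sum.inl i) (Sum.inl l)
        refine ⟨fun h => ?_, fun a b ha hb => ?_⟩
        · have := Sum.inl.inj h
          rw [this] at hl1
          omega
        · have ha' := Sum.inl.inj ha
          have hb' := Sum.inl.inj hb
          subst ha' hb'
          exact ⟨by omega, hl2⟩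
      exact h6.trans (ih l j hl3 hj (by omega) (by omega))

/-- Deleting fewer than `u + r` vertices (fewer than all `k + u`) leaves a connected graph: if a vertex
`Sum.inr _` is left, it is adjacent to all others. Otherwise fewer than `r` vertices of the path are
deleted and consecutive remaining ones differ by at most `r` (induction on the difference: from
`i < j`, `j > i + r`, one of `i + 1, ..., i + r` is left). -/
theorem pw_conn (k r u : ℕ) (hr : r < k) : MConn (u + r) (pw k r u) := by
  classical
  refine ⟨?_, ?_⟩
  · rw [Fintype.card_sum, Fintype.card_fin, Fintype.card_fin]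
    omega
  intro S hS
  rw [SimpleGraph.connected_iff_exists_forall_reachable]
  by_cases hA : ∃ w : Fin u, (Sum.inr w : Fin k ⊕ Fin u) ∉ S
  · obtain ⟨w, hw⟩ := hA
    refine ⟨⟨Sum.inr w, hw⟩, fun y => ?_⟩
    by_cases hy : y = ⟨Sum.inr w, hw⟩
    · rw [hy]
    · apply SimpleGraph.Adj.reachable
      show (pw k r u).Adj (Sum.inr w) y.1
      refine ⟨fun h => hy (Subtype.ext h.symm), fun i j hi _ => ?_⟩
      exact absurd hi (by simp)
  · push Not at hA
    have hD : (Finset.univ.filter (fun i : Fin k => (Sum.inl i : Fin k ⊕ Fin u) ∈ S)).card < r := by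
      have hsub : (Finset.univ.filter (fun i : Fin k => (Sum.inl i : Fin k ⊕ Fin u) ∈ S)).image Sum.inl ∪
          (Finset.univ : Finset (Fin u)).image Sum.inr ⊆ S := by
        intro x hx
        rw [Finset.mem_union, Finset.mem_image, Finset.mem_image] at hx
        rcases hx with ⟨i, hi, rfl⟩ | ⟨w, _, rfl⟩
        · exact (Finset.mem_filter.1 hi).2
        · exact hA w
      have h1 := Finset.card_le_card hsub
      rw [Finset.card_union_of_disjoint, Finset.card_image_of_injective _ Sum.inl_injective,
        Finset.card_image_of_injective _ Sum.inr_injective, Finset.card_univ, Fintype.card_fin] at h1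
      · omega
      · rw [Finset.disjoint_left]
        intro x hx hy
        rw [Finset.mem_image] at hx hy
        obtain ⟨i, _, rfl⟩ := hx
        obtain ⟨w, _, hw⟩ := hy
        exact absurd hw (by simp)
    have hex : ∃ i : Fin k, (Sum.inl i : Fin k ⊕ Fin u) ∉ S := by
      by_contra hno
      push Not at hno
      have h2 : Finset.univ.filter (fun i : Fin k => (Sum.inl i : Fin k ⊕ Fin u) ∈ S) = Finset.univ :=
        Finset.filter_true_of_mem fun i _ => hno i
      rw [h2, Finset.card_univ, Fintype.card_fin] at hD
      omega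
    obtain ⟨i, hi⟩ := hex
    refine ⟨⟨Sum.inl i, hi⟩, fun y => ?_⟩
    obtain ⟨y, hy⟩ := y
    rcases y with j | w
    · rcases le_total (i : ℕ) j with h3 | h3
      · exact lcn_reach hD (j : ℕ) i j hi hy h3 (by omega)
      · exact (lcn_reach hD (i : ℕ) j i hy hi h3 (by omega)).symm
    · exact absurd (hA w) hy
-- END row lcn

/-- The order in which the vertices of the path are prescribed. -/
def ord (k i : ℕ) : ℕ := if i % 2 = 0 then i / 2 else (k + 1) / 2 + i / 2

-- BEGIN row lor
theorem ord_lt {k i : ℕ} (h : i < k) : ord k i < k := by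
  unfold ord
  split_ifs <;> omega

theorem ord_inj {k i j : ℕ} (hi : i < k) (hj : j < k) (h : ord k i = ord k j) : i = j := by
  unfold ord at h
  split_ifs at h <;> omega

/-- Cyclically consecutive ones differ by more than `(k - 3) / 2`. -/
theorem ord_far {k i j : ℕ} (hk : 3 ≤ k) (hi : i < k) (hj : j < k)
    (hij : j = i + 1 ∨ (j = 0 ∧ i + 1 = k)) :
    ¬ (ord k i ≤ ord k j + (k - 3) / 2 ∧ ord k j ≤ ord k i + (k - 3) / 2) := by
  rintro ⟨h1, h2⟩
  unfold ord at h1 h2
  split_ifs at h1 h2 <;> omega
-- END row lor

-- BEGIN row lno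
private theorem lno_len {A B : Type} [Fintype A] [Fintype B] (L : List (A ⊕ B)) (hL : L.Nodup)
    (h : ∀ x ∈ L, x.isLeft = true) : L.length ≤ Fintype.card A := by
  classical
  rw [← List.toFinset_card_of_nodup hL]
  have h1 : L.toFinset ⊆ (Finset.univ : Finset A).image Sum.inl := by
    intro x hx
    rw [List.mem_toFinset] at hx
    obtain ⟨a, rfl⟩ := Sum.isLeft_iff.1 (h x hx)
    exact Finset.mem_image_of_mem _ (Finset.mem_univ a)
  exact (Finset.card_le_card h1).trans Finset.card_image_le

private theorem lno_lenr {A B : Type} [Fintype A] [Fintype B] (L : List (A ⊕ B)) (hL : L.Nodup)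
    (h : ∀ x ∈ L, x.isLeft = false) : L.length ≤ Fintype.card B := by
  classical
  rw [← List.toFinset_card_of_nodup hL]
  have h1 : L.toFinset ⊆ (Finset.univ : Finset B).image Sum.inr := by
    intro x hx
    rw [List.mem_toFinset] at hx
    obtain ⟨b, rfl⟩ := Sum.isRight_iff.1 (Sum.isLeft_eq_false.1 (h x hx))
    exact Finset.mem_image_of_mem _ (Finset.mem_univ b)
  exact (Finset.card_le_card h1).trans Finset.card_image_le

private theorem lno_bad {V : Type} (R : V → V → Prop) [DecidableRel R] (L : List V)
    (h : L.IsChain (fun x y => ¬ R x y)) : L.length ≤ bad R L + 1 := by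
  induction L with
  | nil => simp
  | cons x l ih =>
    cases l with
    | nil => simp
    | cons y l =>
      have h1 := List.isChain_cons_cons.1 h
      have h2 := ih h1.2
      have e : bad R (x :: y :: l) = (if R x y then 0 else 1) + bad R (y :: l) := rfl
      rw [e, if_neg h1.1, List.length_cons]
      omega

/-- General non-orderedness: `v 0, ..., v (k - 1)` are all the vertices of the form `Sum.inl _`,
cyclically consecutive ones are not adjacent, and there are fewer than `k` other vertices. As in
`Kcb.lowCo_not_ordered` (closing pair: rotate the cycle, or count the last segment separately). -/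
theorem not_ordered {k u : ℕ} (hk : 3 ≤ k) (hu : u < k) (G : SimpleGraph (Fin k ⊕ Fin u))
    (s : Fin k → Fin k) (hs : Function.Injective s)
    (h : ∀ i j : Fin k, ((j : ℕ) = i + 1 ∨ ((j : ℕ) = 0 ∧ (i : ℕ) + 1 = k)) →
      ¬ G.Adj (Sum.inl (s i)) (Sum.inl (s j))) : ¬ KOrdered k G := by
  classical
  intro hK
  let v : Fin k → Fin k ⊕ Fin u := fun i => Sum.inl (s i)
  obtain ⟨L, ⟨_, hnd, hch, hne, hcl⟩, hsub⟩ := hK v (fun i j hij => hs (Sum.inl_injective hij))
  have hall : ∀ x ∈ List.ofFn v, x.isLeft = true := by
    intro x hx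
    rw [List.mem_ofFn'] at hx
    obtain ⟨i, rfl⟩ := hx
    rfl
  have hs2 : (List.ofFn v).Sublist (L.filter Sum.isLeft) := by
    have h1 := hsub.filter Sum.isLeft
    rwa [List.filter_eq_self.2 hall] at h1
  have hlen : (L.filter Sum.isLeft).length ≤ k := by
    have h1 := lno_len (L.filter Sum.isLeft) (hnd.filter _) (fun x hx => (List.mem_filter.1 hx).2)
    rwa [Fintype.card_fin] at h1
  have heq : List.ofFn v = L.filter Sum.isLeft :=
    hs2.eq_of_length_le (by rw [List.length_ofFn]; exact hlen)
  have hbad : k ≤ bad G.Adj (L.filter Sum.isLeft) + 1 := by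
    have h1 := lno_bad G.Adj (List.ofFn v) (by
      rw [List.isChain_iff_getElem]
      intro i hi
      rw [List.length_ofFn] at hi
      rw [List.getElem_ofFn, List.getElem_ofFn]
      exact h _ _ (Or.inl rfl))
    rw [List.length_ofFn, heq] at h1
    exact h1
  have hlen' : (L.filter fun x => !Sum.isLeft x).length ≤ u := by
    have h1 := lno_lenr (L.filter fun x => !Sum.isLeft x) (hnd.filter _) (fun x hx => by
      have h1 := (List.mem_filter.1 hx).2
      simpa using h1)
    rwa [Fintype.card_fin] at h1
  cases L with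
  | nil => exact hne rfl
  | cons a l =>
    cases ha : a.isLeft with
    | false =>
      have e1 : (a :: l).filter Sum.isLeft = l.filter Sum.isLeft := by simp [ha]
      have e2 : (a :: l).filter (fun x => !Sum.isLeft x) =
          a :: l.filter (fun x => !Sum.isLeft x) :=
        List.filter_cons_of_pos (by rw [ha]; rfl)
      rw [e1] at hbad
      rw [e2, List.length_cons] at hlen'
      have := bad_filter_le G.Adj Sum.isLeft l hch.tail
      omega
    | true =>
      have e1 : (a :: l).filter Sum.isLeft = a :: l.filter Sum.isLeft := by simp [ha]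
      obtain ⟨l', g, hlg⟩ : ∃ l' g, a :: l = l' ++ [g] :=
        ⟨(a :: l).dropLast, (a :: l).getLast hne, (List.dropLast_append_getLast hne).symm⟩
      have hg : (a :: l).getLast hne = g := by
        simp only [hlg, List.getLast_append_singleton]
      rw [hg] at hcl
      have hcl' : G.Adj g a := hcl
      cases hgl : g.isLeft with
      | false =>
        have e3 : (a :: l).filter Sum.isLeft = l'.filter Sum.isLeft := by
          rw [hlg, List.filter_append]
          simp [hgl]
        have e4 : ((a :: l).filter (fun x => !Sum.isLeft x)).length =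
            (l'.filter (fun x => !Sum.isLeft x)).length + 1 := by
          have e5 : [g].filter (fun x => !Sum.isLeft x) = [g] := by
            rw [List.filter_cons_of_pos (by rw [hgl]; rfl), List.filter_nil]
          rw [hlg, List.filter_append, List.length_append, e5, List.length_singleton]
        rw [e3] at hbad
        rw [e4] at hlen'
        have hch' : l'.IsChain G.Adj := by
          rw [hlg] at hch
          exact (List.isChain_append.1 hch).1
        have := bad_filter_le G.Adj Sum.isLeft l' hch'
        omega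
      | true =>
        have e3 : (a :: l).filter Sum.isLeft = l'.filter Sum.isLeft ++ [g] := by
          rw [hlg, List.filter_append]
          simp [hgl]
        have hkp : 0 < k := by omega
        have h5 : a = v ⟨0, hkp⟩ := by
          have h6 : (List.ofFn v)[0]? = some a := by
            rw [heq, e1]
            rfl
          rw [List.getElem?_ofFn] at h6
          rw [dif_pos hkp] at h6
          exact (Option.some.inj h6).symm
        have h7 : g = v ⟨k - 1, by omega⟩ := by
          have h8 : (List.ofFn v).getLast? = some g := by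
            rw [heq, e3]
            simp
          rw [List.getLast?_eq_getElem?, List.length_ofFn, List.getElem?_ofFn,
            dif_pos (by omega : k - 1 < k)] at h8
          exact (Option.some.inj h8).symm
        rw [h5, h7] at hcl'
        exact h ⟨k - 1, by omega⟩ ⟨0, hkp⟩ (Or.inr ⟨rfl, by simp; omega⟩) hcl'
-- END row lno

/-- The lower bound. -/
theorem lower (k : ℕ) (hk : 3 ≤ k) : IsInterval (pw k ((k - 3) / 2) (k - 1)) ∧
    MConn ((3 * k - 3) / 2 - 1) (pw k ((k - 3) / 2) (k - 1)) ∧
    ¬ KOrdered k (pw k ((k - 3) / 2) (k - 1)) := by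
  refine ⟨pw_interval _ _ _, ?_, ?_⟩
  · have h1 := pw_conn k ((k - 3) / 2) (k - 1) (by omega)
    have h2 : k - 1 + (k - 3) / 2 = (3 * k - 3) / 2 - 1 := by omega
    rwa [h2] at h1
  · refine not_ordered hk (by omega) _ (fun i => ⟨ord k i, ord_lt i.2⟩) ?_ ?_
    · intro i j hij
      exact Fin.ext (ord_inj i.2 j.2 (Fin.mk.inj hij))
    · intro i j hij hadj
      exact ord_far hk i.2 j.2 hij (hadj.2 _ _ rfl rfl)

end Kci
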