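import Pool.Agent.Kci.Up
import Pool.Agent.Kci.Low

set_option autoImplicit false

namespace Kci

open Kcg

/-- `m`-connected graphs are `m'`-connected for `m' ≤ m`. -/
theorem mconn_mono {V : Type} [Fintype V] {m m' : ℕ} (h : m' ≤ m) {G : SimpleGraph V}
    (hG : MConn m G) : MConn m' G :=
  ⟨lt_of_le_of_lt h hG.1, fun S hS => hG.2 S (lt_of_lt_of_le hS h)⟩

/-- No `m` below `(3 * k - 3) / 2` suffices, even for interval graphs. -/
theorem lower_le (k : ℕ) (hk : 3 ≤ k) (m : ℕ)
    (hm : ∀ (V : Type) [Fintype V] (G : SimpleGraph V), IsInterval G → MConn m G → KOrdered k G) :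
    (3 * k - 3) / 2 ≤ m := by
  by_contra hlt
  obtain ⟨h1, h2, h3⟩ := lower k hk
  exact h3 (hm _ _ h1 (mconn_mono (by omega) h2))

end Kci
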