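import Pool.Agent.Kci.Defs
import Pool.Agent.Kcb.Sep
import Pool.Agent.Kcb.Cyc

set_option autoImplicit false

namespace Kci

open Kcg

variable {V : Type} [DecidableEq V]

-- BEGIN row int
/-- Interval graphs are strongly chordal (`V` finite): the vertex of `S` with the smallest right end
is simple: for `x` in its closed neighbourhood, `z` in `S` is in the closed neighbourhood of `x` iff
`l z ≤ r x` (because `l x ≤ r v ≤ r z`). Compare `r x` and `r y`. -/
theorem interval_sc [Finite V] {G : SimpleGraph V} (h : IsInterval G) : StronglyChordal G := by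
  obtain ⟨l, r, hlr, hadj⟩ := h
  intro S hS
  obtain ⟨v, hv, hmin⟩ := Set.exists_min_image S r (Set.toFinite S) hS
  have key : ∀ x ∈ S, (x = v ∨ G.Adj v x) → ∀ z ∈ S, (z = x ∨ G.Adj x z) ↔ l z ≤ r x := by
    intro x hx hxv z hz
    have hlx : l x ≤ r v := by
      rcases hxv with rfl | hxv
      · exact hlr _
      · exact ((hadj v x hxv.ne).1 hxv).2
    constructor
    · rintro (rfl | hxz)
      · exact hlr _
      · exact ((hadj x z hxz.ne).1 hxz).2
    · intro hzx
      by_cases hzx' : z = x
      · exact Or.inl hzx'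
      · exact Or.inr ((hadj x z (fun h => hzx' h.symm)).2 ⟨hlx.trans (hmin z hz), hzx⟩)
  refine ⟨v, hv, fun x hx y hy hxv hyv => ?_⟩
  rcases le_total (r x) (r y) with h1 | h1
  · left
    intro z hz h2
    exact (key y hy hyv z hz).2 (((key x hx hxv z hz).1 h2).trans h1)
  · right
    intro z hz h2
    exact (key x hx hxv z hz).2 (((key y hy hyv z hz).1 h2).trans h1)
-- END row int

-- BEGIN row sim
/-- A simple vertex is simplicial: `x ∈ cn x ⊆ cn y` or `y ∈ cn y ⊆ cn x`. -/
theorem simp_clique {G : SimpleGraph V} {S : Finset V} {v : V} (h : Simp G S v) {x y : V}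
    (hx : x ∈ cn G S v) (hy : y ∈ cn G S v) (hxy : x ≠ y) : G.Adj x y := by
  have hxx : x ∈ cn G S x := mem_cn.2 ⟨(mem_cn.1 hx).1, Or.inl rfl⟩
  have hyy : y ∈ cn G S y := mem_cn.2 ⟨(mem_cn.1 hy).1, Or.inl rfl⟩
  rcases h x hx y hy with h1 | h1
  · rcases (mem_cn.1 (h1 hxx)).2 with h2 | h2
    · exact absurd h2 hxy
    · exact h2.symm
  · rcases (mem_cn.1 (h1 hyy)).2 with h2 | h2
    · exact absurd h2.symm hxy
    · exact h2

/-- Existence of a simple vertex in a nonempty finite set. -/
theorem exists_simp {G : SimpleGraph V} (h : StronglyChordal G) (S : Finset V)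
    (hS : S.Nonempty) : ∃ v ∈ S, Simp G S v := by
  obtain ⟨v, hv, hv2⟩ := h (S : Set V) (by exact_mod_cast hS)
  refine ⟨v, by exact_mod_cast hv, fun x hx y hy => ?_⟩
  obtain ⟨hx1, hx2⟩ := mem_cn.1 hx
  obtain ⟨hy1, hy2⟩ := mem_cn.1 hy
  rcases hv2 x (by exact_mod_cast hx1) y (by exact_mod_cast hy1) hx2 hy2 with h1 | h1
  · refine Or.inl fun z hz => ?_
    obtain ⟨hz1, hz2⟩ := mem_cn.1 hz
    exact mem_cn.2 ⟨hz1, h1 z (by exact_mod_cast hz1) hz2⟩
  · refine Or.inr fun z hz => ?_
    obtain ⟨hz1, hz2⟩ := mem_cn.1 hz
    exact mem_cn.2 ⟨hz1, h1 z (by exact_mod_cast hz1) hz2⟩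
-- END row sim

-- BEGIN row msp
/-- From `m`-connectivity (use `Kcb.sep`). -/
theorem msep_univ [Fintype V] {G : SimpleGraph V} {m : ℕ} (h : MConn m G) :
    MSep G m Finset.univ := by
  refine ⟨?_, fun A B _ _ hA hB hAB hno => ?_⟩
  · rw [Finset.card_univ]
    exact h.1
  · rw [Finset.card_univ]
    exact Kcb.sep h A B hA hB hAB hno

/-- The closed neighbourhoods have more than `m` elements: `A = {v}`, `B = S \ cn v`. -/
theorem msep_deg {G : SimpleGraph V} {m : ℕ} {S : Finset V} (h : MSep G m S) {v : V}
    (hv : v ∈ S) : m < (cn G S v).card := by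
  have hsub : cn G S v ⊆ S := fun z hz => (mem_cn.1 hz).1
  have hcard : (S \ cn G S v).card + (cn G S v).card = S.card :=
    Finset.card_sdiff_add_card_eq_card hsub
  have h1 := h.1
  rcases (S \ cn G S v).eq_empty_or_nonempty with h0 | h0
  · rw [h0, Finset.card_empty] at hcard
    omega
  · have hvc : v ∈ cn G S v := mem_cn.2 ⟨hv, Or.inl rfl⟩
    have h2 := h.2 {v} (S \ cn G S v) (Finset.singleton_subset_iff.2 hv) Finset.sdiff_subset
      (Finset.singleton_nonempty v) h0
      (Finset.disjoint_singleton_left.2 fun hm => (Finset.mem_sdiff.1 hm).2 hvc) (by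
        intro x hx y hy hadj
        rw [Finset.mem_singleton] at hx
        rw [hx] at hadj
        obtain ⟨hy1, hy2⟩ := Finset.mem_sdiff.1 hy
        exact hy2 (mem_cn.2 ⟨hy1, Or.inr hadj⟩))
    rw [Finset.card_singleton] at h2
    omega

/-- A set with `m + 1` elements is a clique: `A = {x}`, `B = {y}`. -/
theorem msep_clique {G : SimpleGraph V} {m : ℕ} {S : Finset V} (h : MSep G m S)
    (hS : S.card ≤ m + 1) {x y : V} (hx : x ∈ S) (hy : y ∈ S) (hxy : x ≠ y) : G.Adj x y := by
  by_contra hno
  have h2 := h.2 {x} {y} (Finset.singleton_subset_iff.2 hx) (Finset.singleton_subset_iff.2 hy)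
    (Finset.singleton_nonempty x) (Finset.singleton_nonempty y)
    (Finset.disjoint_singleton_left.2 fun hm => hxy (Finset.mem_singleton.1 hm)) (by
      intro a ha b hb hadj
      rw [Finset.mem_singleton] at ha hb
      rw [ha, hb] at hadj
      exact hno hadj)
  rw [Finset.card_singleton, Finset.card_singleton] at h2
  omega

/-- Deleting a simplicial vertex: `N(v)` meets at most one of `A`, `B`; add `v` to the other one. -/
theorem msep_erase {G : SimpleGraph V} {m : ℕ} {S : Finset V} (h : MSep G m S) {v : V}
    (hv : v ∈ S) (hc : ∀ x ∈ cn G S v, ∀ y ∈ cn G S v, x ≠ y → G.Adj x y)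
    (hS : m + 1 < S.card) : MSep G m (S.erase v) := by
  have hcard := Finset.card_erase_of_mem hv
  refine ⟨by omega, fun A B hAS hBS hA hB hAB hno => ?_⟩
  have hA' : A ⊆ S := hAS.trans (Finset.erase_subset v S)
  have hB' : B ⊆ S := hBS.trans (Finset.erase_subset v S)
  have hvA : v ∉ A := fun hm => (Finset.mem_erase.1 (hAS hm)).1 rfl
  have hvB : v ∉ B := fun hm => (Finset.mem_erase.1 (hBS hm)).1 rfl
  by_cases hcase : ∃ x ∈ A, G.Adj v x
  · obtain ⟨x, hx, hvx⟩ := hcase
    have hnB : ∀ y ∈ B, ¬ G.Adj v y := by
      intro y hy hvy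
      have hxy : x ≠ y := fun he => Finset.disjoint_left.1 hAB hx (he ▸ hy)
      exact hno x hx y hy (hc x (mem_cn.2 ⟨hA' hx, Or.inr hvx⟩) y (mem_cn.2 ⟨hB' hy, Or.inr hvy⟩) hxy)
    have h2 := h.2 (insert v A) B (Finset.insert_subset hv hA') hB' (Finset.insert_nonempty v A) hB
      (Finset.disjoint_insert_left.2 ⟨hvB, hAB⟩) (by
        intro a ha b hb
        rcases Finset.mem_insert.1 ha with rfl | ha
        · exact hnB b hb
        · exact hno a ha b hb)
    rw [Finset.card_insert_of_notMem hvA] at h2
    omega
  · push Not at hcase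
    have h2 := h.2 A (insert v B) hA' (Finset.insert_subset hv hB') hA (Finset.insert_nonempty v B)
      (Finset.disjoint_insert_right.2 ⟨hvA, hAB⟩) (by
        intro a ha b hb
        rcases Finset.mem_insert.1 hb with rfl | hb
        · exact fun hadj => hcase a ha hadj.symm
        · exact hno a ha b hb)
    rw [Finset.card_insert_of_notMem hvB] at h2
    omega
-- END row msp

-- BEGIN row sht
private theorem sht_chain {G : SimpleGraph V} {A M B : List V} {x y : V}
    (h : (A ++ x :: (M ++ y :: B)).IsChain G.Adj) (hxy : G.Adj x y) :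
    (A ++ x :: y :: B).IsChain G.Adj := by
  rw [List.isChain_split] at h ⊢
  refine ⟨h.1, ?_⟩
  have h2 : ((x :: M) ++ y :: B).IsChain G.Adj := h.2
  rw [List.isChain_split] at h2
  exact List.isChain_cons_cons.2 ⟨hxy, h2.2⟩

/-- Shortening: if the path `a, P, b` has a shortcut, there is a shorter list `P'` of some of the
elements of `P` (a sublist) with the same ends. -/
theorem shorten {G : SimpleGraph V} {a b : V} {P : List V}
    (hc : (a :: (P ++ [b])).IsChain G.Adj) (hi : ¬ Ind G (a :: (P ++ [b]))) :
    ∃ P' : List V, P'.Sublist P ∧ P'.length < P.length ∧ (a :: (P' ++ [b])).IsChain G.Adj := by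
  unfold Ind at hi
  push Not at hi
  obtain ⟨A, x, M, y, B, hL, hM, hxy⟩ := hi
  have hch : (A ++ x :: y :: B).IsChain G.Adj := sht_chain (hL ▸ hc) hxy
  have hMl : 0 < M.length := List.length_pos_iff.2 hM
  rcases B.eq_nil_or_concat with rfl | ⟨B', b', rfl⟩
  · cases A with
    | nil =>
      rw [List.nil_append, List.cons.injEq] at hL
      obtain ⟨rfl, h2⟩ := hL
      obtain ⟨rfl, h3⟩ := List.append_inj' h2 rfl
      rw [List.cons.injEq] at h3
      obtain ⟨rfl, -⟩ := h3
      exact ⟨[], List.nil_sublist _, hMl, hch⟩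
    | cons a' A' =>
      rw [List.cons_append, List.cons.injEq] at hL
      obtain ⟨rfl, h2⟩ := hL
      have h3 : P ++ [b] = (A' ++ x :: M) ++ [y] := by
        rw [h2, List.append_assoc, List.cons_append]
      obtain ⟨rfl, h4⟩ := List.append_inj' h3 rfl
      rw [List.cons.injEq] at h4
      obtain ⟨rfl, -⟩ := h4
      refine ⟨A' ++ [x], ?_, ?_, ?_⟩
      · exact List.Sublist.append_left (List.singleton_sublist.2 List.mem_cons_self) A'
      · rw [List.length_append, List.length_append, List.length_cons, List.length_cons,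
          List.length_nil]
        omega
      · rw [List.append_assoc]
        exact hch
  · rw [List.concat_eq_append] at hL hch
    cases A with
    | nil =>
      rw [List.nil_append, List.cons.injEq] at hL
      obtain ⟨rfl, h2⟩ := hL
      have h3 : P ++ [b] = (M ++ y :: B') ++ [b'] := by
        rw [h2, List.append_assoc, List.cons_append]
      obtain ⟨rfl, h4⟩ := List.append_inj' h3 rfl
      rw [List.cons.injEq] at h4
      obtain ⟨rfl, -⟩ := h4
      refine ⟨y :: B', List.sublist_append_right M _, ?_, hch⟩
      rw [List.length_append]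
      omega
    | cons a' A' =>
      rw [List.cons_append, List.cons.injEq] at hL
      obtain ⟨rfl, h2⟩ := hL
      have h3 : P ++ [b] = (A' ++ x :: (M ++ y :: B')) ++ [b'] := by
        rw [h2, List.append_assoc, List.cons_append, List.append_assoc, List.cons_append]
      obtain ⟨rfl, h4⟩ := List.append_inj' h3 rfl
      rw [List.cons.injEq] at h4
      obtain ⟨rfl, -⟩ := h4
      refine ⟨A' ++ x :: y :: B', ?_, ?_, ?_⟩
      · exact List.Sublist.append_left (List.Sublist.cons_cons x (List.sublist_append_right M _)) A'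
      · rw [List.length_append, List.length_append, List.length_cons, List.length_cons,
          List.length_cons, List.length_append, List.length_cons]
        omega
      · have h5 : A' ++ x :: y :: B' ++ [b] = A' ++ x :: y :: (B' ++ [b]) := by
          rw [List.append_assoc, List.cons_append, List.cons_append]
        rw [h5]
        exact hch
-- END row sht

-- BEGIN row mns
/-- A solution with least total length has only induced paths (use `shorten`; strong induction on
`∑ i, (P i).length`, replace one `P i` with `Function.update`). -/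
theorem min_sol {G : SimpleGraph V} {k : ℕ} [NeZero k] {S : Finset V} {t : Fin k → V}
    (h : ∃ P, Sol G S t P) : ∃ P, Sol G S t P ∧ ∀ i, Ind G (t i :: (P i ++ [t (i + 1)])) := by
  classical
  obtain ⟨P0, h0⟩ := h
  have hex : ∃ n, ∃ P, Sol G S t P ∧ ∑ i, (P i).length = n := ⟨_, P0, h0, rfl⟩
  obtain ⟨P, hP, hPn⟩ := Nat.find_spec hex
  have hmin : ∀ Q, Sol G S t Q → ∑ i, (P i).length ≤ ∑ i, (Q i).length := by
    intro Q hQ
    rw [hPn]
    exact Nat.find_min' hex ⟨Q, hQ, rfl⟩
  refine ⟨P, hP, fun i => ?_⟩
  by_contra hi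
  obtain ⟨P', h1, h2, h3⟩ := shorten (hP.1 i) hi
  have hself : Function.update P i P' i = P' := Function.update_self i P' P
  have hne : ∀ j, j ≠ i → Function.update P i P' j = P j := fun j hj =>
    Function.update_of_ne hj P' P
  have hsub : ∀ j, ∀ x ∈ Function.update P i P' j, x ∈ P j := by
    intro j x hx
    by_cases hj : j = i
    · subst hj
      rw [hself] at hx
      exact h1.subset hx
    · rwa [hne j hj] at hx
  have hQ : Sol G S t (Function.update P i P') := by
    refine ⟨fun j => ?_, fun j => ?_, fun j l hjl x hx hx' => ?_, fun j x hx => ?_⟩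
    · by_cases hj : j = i
      · subst hj
        rw [hself]
        exact h3
      · rw [hne j hj]
        exact hP.1 j
    · by_cases hj : j = i
      · subst hj
        rw [hself]
        exact (hP.2.1 j).sublist h1
      · rw [hne j hj]
        exact hP.2.1 j
    · exact hP.2.2.1 j l hjl x (hsub j x hx) (hsub l x hx')
    · exact hP.2.2.2 j x (hsub j x hx)
  have hlt : ∑ j, (Function.update P i P' j).length < ∑ j, (P j).length := by
    apply Finset.sum_lt_sum
    · intro j _
      by_cases hj : j = i
      · subst hj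
        rw [hself]
        exact h2.le
      · rw [hne j hj]
    · refine ⟨i, Finset.mem_univ i, ?_⟩
      rw [hself]
      exact h2
  exact absurd (hmin _ hQ) (not_le.2 hlt)
-- END row mns

-- BEGIN row fst
/-- On an induced path `u, P, b` a neighbour of `u` in `P` is the first element of `P`. -/
theorem ind_head {G : SimpleGraph V} {u b x : V} {P : List V}
    (hi : Ind G (u :: (P ++ [b]))) (hx : x ∈ P) (hux : G.Adj u x) :
    ∃ R, P = x :: R := by
  obtain ⟨S1, S2, rfl⟩ := List.append_of_mem hx
  rcases S1 with _ | ⟨y, S1⟩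
  · exact ⟨S2, rfl⟩
  · exfalso
    refine hi [] u (y :: S1) x (S2 ++ [b]) ?_ (List.cons_ne_nil _ _) hux
    simp

/-- On an induced path `a, P, u` a neighbour of `u` in `P` is the last element of `P`. -/
theorem ind_last {G : SimpleGraph V} {u a x : V} {P : List V}
    (hi : Ind G (a :: (P ++ [u]))) (hx : x ∈ P) (hux : G.Adj x u) :
    ∃ R, P = R ++ [x] := by
  obtain ⟨S1, S2, rfl⟩ := List.append_of_mem hx
  rcases S2 with _ | ⟨y, S2⟩
  · exact ⟨S1, rfl⟩
  · exfalso
    refine hi (a :: S1) x (y :: S2) u [] ?_ (List.cons_ne_nil _ _) hux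
    simp
-- END row fst

-- BEGIN row one
private theorem one_aux {G : SimpleGraph V} {S : Finset V} {a b : V} {P : List V}
    (hc : (a :: (P ++ [b])).IsChain G.Adj) (hn : (a :: (P ++ [b])).Nodup)
    (hi : Ind G (a :: (P ++ [b]))) (hS : ∀ z ∈ a :: (P ++ [b]), z ∈ S)
    {x y : V} {A M B : List V} (hP : P = A ++ x :: (M ++ y :: B))
    (hxy : cn G S x ⊆ cn G S y ∨ cn G S y ⊆ cn G S x) : False := by
  rcases hxy with h | h
  · obtain ⟨A0, p, hp⟩ : ∃ A0 p, a :: A = A0 ++ [p] := by
      rcases List.eq_nil_or_concat (a :: A) with h0 | ⟨L, c, h0⟩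
      · exact absurd h0 (by simp)
      · exact ⟨L, c, by simpa using h0⟩
    have e : a :: (P ++ [b]) = A0 ++ p :: ((x :: M) ++ y :: (B ++ [b])) := by
      have : a :: (P ++ [b]) = (a :: A) ++ (x :: (M ++ y :: B)) ++ [b] := by
        rw [hP]; simp
      rw [this, hp]; simp
    have hi' := hi A0 p (x :: M) y (B ++ [b]) e (by simp)
    rw [e] at hc hn hS
    have hpx : G.Adj p x := by
      have h1 := (List.isChain_append.1 hc).2.1
      simp only [List.cons_append, List.isChain_cons_cons] at h1
      exact h1.1
    have hp1 : p ∈ cn G S x := mem_cn.2 ⟨hS p (by simp), Or.inr hpx.symm⟩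
    rcases (mem_cn.1 (h hp1)).2 with h2 | h2
    · have h3 := (List.nodup_append.1 hn).2.1
      rw [List.nodup_cons] at h3
      exact h3.1 (by rw [h2]; simp)
    · exact hi' h2.symm
  · obtain ⟨q, B0, hq⟩ : ∃ q B0, B ++ [b] = q :: B0 := by
      cases B with
      | nil => exact ⟨b, [], rfl⟩
      | cons c B => exact ⟨c, B ++ [b], rfl⟩
    have e : a :: (P ++ [b]) = (a :: A) ++ x :: ((M ++ [y]) ++ q :: B0) := by
      have : a :: (P ++ [b]) = (a :: A) ++ x :: (M ++ y :: (B ++ [b])) := by
        rw [hP]; simp
      rw [this, hq]; simp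
    have hi' := hi (a :: A) x (M ++ [y]) q B0 e (by simp)
    rw [e] at hc hn hS
    have hyq : G.Adj y q := by
      have h1 := (List.isChain_append.1 hc).2.1
      have e2 : x :: ((M ++ [y]) ++ q :: B0) = (x :: M) ++ (y :: q :: B0) := by simp
      rw [e2] at h1
      have h3 := (List.isChain_append.1 h1).2.1
      rw [List.isChain_cons_cons] at h3
      exact h3.1
    have hq1 : q ∈ cn G S y := mem_cn.2 ⟨hS q (by simp), Or.inr hyq⟩
    rcases (mem_cn.1 (h hq1)).2 with h2 | h2
    · have h3 := (List.nodup_append.1 hn).2.1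
      rw [List.nodup_cons] at h3
      exact h3.1 (by rw [← h2]; simp)
    · exact hi' h2

/-- An induced path has at most one inner vertex in a set `F` whose closed neighbourhoods (in `S`)
are linearly ordered: if `x ≠ y` are two of them, `cn x ⊆ cn y`, the neighbour of `x` on the path
that is not towards `y` is in `cn x`, so adjacent to `y` (it is not `y`, no repetition): a
shortcut. -/
theorem ind_one {G : SimpleGraph V} {S : Finset V} {a b : V} {P : List V}
    (hc : (a :: (P ++ [b])).IsChain G.Adj) (hn : (a :: (P ++ [b])).Nodup)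
    (hi : Ind G (a :: (P ++ [b]))) (hS : ∀ z ∈ a :: (P ++ [b]), z ∈ S) (F : Finset V)
    (hF : ∀ x ∈ F, ∀ y ∈ F, cn G S x ⊆ cn G S y ∨ cn G S y ⊆ cn G S x) :
    (P.toFinset ∩ F).card ≤ 1 := by
  by_contra hcon
  push Not at hcon
  obtain ⟨x, hx, y, hy, hxy⟩ := Finset.one_lt_card.1 hcon
  rw [Finset.mem_inter, List.mem_toFinset] at hx hy
  obtain ⟨A, C, hA⟩ := List.append_of_mem hx.1
  have hy1 : y ∈ A ∨ y ∈ C := by
    have h1 := hy.1
    rw [hA, List.mem_append, List.mem_cons] at h1
    rcases h1 with h1 | h1 | h1
    · exact Or.inl h1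
    · exact absurd h1.symm hxy
    · exact Or.inr h1
  rcases hy1 with h1 | h1
  · obtain ⟨A1, M, hM⟩ := List.append_of_mem h1
    have hP : P = A1 ++ y :: (M ++ x :: C) := by rw [hA, hM]; simp
    exact one_aux hc hn hi hS hP (hF y hy.2 x hx.2)
  · obtain ⟨M, B, hM⟩ := List.append_of_mem h1
    have hP : P = A ++ x :: (M ++ y :: B) := by rw [hA, hM]
    exact one_aux hc hn hi hS hP (hF x hx.2 y hy.2)
-- END row one

-- BEGIN row cnt
/-- Counting in the cycle of indices: no two consecutive elements of `Q` make a bad pair.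
`#{i ∈ Q, i + 1 ∈ Q} ≥ 2 |Q| - k`, so `|B| ≤ k` and `|B| ≤ 2 k - 2 |Q|`. -/
theorem card_cnt {k : ℕ} [NeZero k] (Q B : Finset (Fin k))
    (h : ∀ i ∈ Q, i + 1 ∈ Q → i ∉ B) : Q.card + B.card ≤ k + k / 2 := by
  classical
  set Q' : Finset (Fin k) := Q.map (Equiv.addRight (1 : Fin k)).symm.toEmbedding with hQ'
  have hm : ∀ i, i ∈ Q' ↔ i + 1 ∈ Q := by
    intro i
    rw [hQ', Finset.mem_map_equiv]
    rfl
  have hc : Q'.card = Q.card := Finset.card_map _
  have h1 := Finset.card_union_add_card_inter Q Q'
  have h2 : (Q ∪ Q').card ≤ k := by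
    have := Finset.card_le_univ (Q ∪ Q')
    rwa [Fintype.card_fin] at this
  have hd : Disjoint B (Q ∩ Q') := by
    rw [Finset.disjoint_left]
    intro i hi hi'
    rw [Finset.mem_inter, hm] at hi'
    exact h i hi'.1 hi'.2 hi
  have h3 := Finset.card_union_of_disjoint hd
  have h4 : (B ∪ (Q ∩ Q')).card ≤ k := by
    have := Finset.card_le_univ (B ∪ (Q ∩ Q'))
    rwa [Fintype.card_fin] at this
  have h5 : B.card ≤ k := by
    have := Finset.card_le_univ B
    rwa [Fintype.card_fin] at this
  omega
-- END row cnt

-- BEGIN row use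
/-- At most `b - 1` free vertices of `N = cn v` are used: `u`, and one for every bad pair different from
`c` and `c - 1` (the pairs at `t' c = u`; their paths have no vertex in `N`). Here `t'` is `t` with
`t' c = u`; `B` is the set of the pairs `i` that are bad for `t`. -/
theorem card_used {G : SimpleGraph V} {k : ℕ} [NeZero k] (hk : 3 ≤ k) {S N : Finset V}
    {t : Fin k → V} {P : Fin k → List V} {c : Fin k} {u : V} (B : Finset (Fin k))
    (hcB : c ∈ B) (hcB' : c - 1 ∈ B)
    (hgood : ∀ i, i ∉ B → P i = [])
    (hone : ∀ i, i ≠ c → i ≠ c - 1 → ((P i).toFinset ∩ N).card ≤ 1)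
    (h0 : ∀ x ∈ P c, x ∉ N) (h1 : ∀ x ∈ P (c - 1), x ∉ N) :
    (insert u (Finset.univ.biUnion (fun i => (P i).toFinset ∩ N))).card ≤ B.card - 1 := by
  have hc1 : c - 1 ≠ c := by
    intro h
    have h2 : (1 : Fin k) = 0 := by simpa using h
    have h3 := congrArg Fin.val h2
    rw [Fin.val_one', Fin.val_zero, Nat.mod_eq_of_lt (by omega)] at h3
    exact one_ne_zero h3
  have h2 : (Finset.univ.biUnion (fun i => (P i).toFinset ∩ N)).card ≤ ((B.erase c).erase (c - 1)).card := by
    refine Finset.card_biUnion_le.trans ?_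
    have h3 : ∀ i ∈ (Finset.univ : Finset (Fin k)), ((P i).toFinset ∩ N).card ≤ if i ∈ (B.erase c).erase (c - 1) then 1 else 0 := by
      intro i _
      have hempty : (∀ x ∈ P i, x ∉ N) → ((P i).toFinset ∩ N).card = 0 := by
        intro h
        rw [Finset.card_eq_zero, Finset.eq_empty_iff_forall_notMem]
        intro x hx
        rw [Finset.mem_inter, List.mem_toFinset] at hx
        exact h x hx.1 hx.2
      by_cases hi : i = c
      · subst hi
        rw [hempty h0]
        exact Nat.zero_le _
      · by_cases hi' : i = c - 1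
        · subst hi'
          rw [hempty h1]
          exact Nat.zero_le _
        · by_cases hB : i ∈ B
          · rw [if_pos (Finset.mem_erase.2 ⟨hi', Finset.mem_erase.2 ⟨hi, hB⟩⟩)]
            exact hone i hi hi'
          · rw [hempty (by rw [hgood i hB]; intro x hx; exact absurd hx List.not_mem_nil)]
            exact Nat.zero_le _
    refine (Finset.sum_le_sum h3).trans ?_
    rw [Finset.sum_ite_mem, Finset.univ_inter, Finset.sum_const, smul_eq_mul, mul_one]
  have h4 : c - 1 ∈ B.erase c := Finset.mem_erase.2 ⟨hc1, hcB'⟩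
  have h5 := Finset.card_erase_of_mem h4
  have h6 := Finset.card_erase_of_mem hcB
  have h7 : 0 < (B.erase c).card := Finset.card_pos.2 ⟨_, h4⟩
  have h8 := Finset.card_insert_le u (Finset.univ.biUnion (fun i => (P i).toFinset ∩ N))
  omega
-- END row use

-- BEGIN row rep
/-- How a solution for `S.erase v`, `t` with `u` in place of `v = t c`, gives one for `S`, `t`: the
lists `P c` and `P (c - 1)` are replaced by `X` and `Y`, the elements of `X` and `Y` are those of
`P' c`, `P' (c - 1)` and new ones in `U`, where `U` is a set of vertices of `S` that are not terminals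
of `t` and not used by `P'`. -/
theorem replace {G : SimpleGraph V} {k : ℕ} [NeZero k] (hk : 3 ≤ k) {S : Finset V}
    {t : Fin k → V} (ht : Function.Injective t) {c : Fin k} {u : V} (hu : ∀ j, u ≠ t j)
    (huS : u ∈ S) {P' : Fin k → List V}
    (hP : Sol G (S.erase (t c)) (Function.update t c u) P') (X Y : List V)
    (hX : (t c :: (X ++ [t (c + 1)])).IsChain G.Adj)
    (hY : (t (c - 1) :: (Y ++ [t c])).IsChain G.Adj)
    (hXn : X.Nodup) (hYn : Y.Nodup) (hXY : ∀ x ∈ X, x ∉ Y)
    (hXm : ∀ x ∈ X, x ∈ P' c ∨ (x ∈ S ∧ (∀ j, x ≠ t j) ∧ ∀ j, x ∉ P' j))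
    (hYm : ∀ x ∈ Y, x ∈ P' (c - 1) ∨ (x ∈ S ∧ (∀ j, x ≠ t j) ∧ ∀ j, x ∉ P' j)) :
    ∃ P, Sol G S t P := by
  have h01 : (1 : Fin k) ≠ 0 := by
    intro h
    have h2 := congrArg Fin.val h
    rw [Fin.val_one', Nat.mod_eq_of_lt (by omega)] at h2
    simp at h2
  have hcc : c ≠ c - 1 := by
    intro h
    exact h01 (sub_eq_self.1 h.symm)
  obtain ⟨g1, g2, g3, g4⟩ := hP
  have hA : ∀ i, ∀ x ∈ P' i, x ∈ S ∧ ∀ j, x ≠ t j := by
    intro i x hx
    obtain ⟨h1, h2⟩ := g4 i x hx
    refine ⟨Finset.mem_of_mem_erase h1, fun j => ?_⟩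
    by_cases hj : j = c
    · rw [hj]
      exact Finset.ne_of_mem_erase h1
    · have h3 := h2 j
      rwa [Function.update_of_ne hj] at h3
  have hXS : ∀ x ∈ X, x ∈ S ∧ ∀ j, x ≠ t j := by
    intro x hx
    rcases hXm x hx with h | h
    · exact hA _ x h
    · exact ⟨h.1, h.2.1⟩
  have hYS : ∀ x ∈ Y, x ∈ S ∧ ∀ j, x ≠ t j := by
    intro x hx
    rcases hYm x hx with h | h
    · exact hA _ x h
    · exact ⟨h.1, h.2.1⟩
  have hXd : ∀ j, j ≠ c → ∀ x ∈ X, x ∉ P' j := by
    intro j hj x hx
    rcases hXm x hx with h | h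
    · exact g3 c j hj.symm x h
    · exact h.2.2 j
  have hYd : ∀ j, j ≠ c - 1 → ∀ x ∈ Y, x ∉ P' j := by
    intro j hj x hx
    rcases hYm x hx with h | h
    · exact g3 (c - 1) j hj.symm x h
    · exact h.2.2 j
  have e1 : Function.update (Function.update P' c X) (c - 1) Y c = X := by
    rw [Function.update_of_ne hcc, Function.update_self]
  have e2 : Function.update (Function.update P' c X) (c - 1) Y (c - 1) = Y := Function.update_self _ _ _
  have e3 : ∀ i, i ≠ c → i ≠ c - 1 → Function.update (Function.update P' c X) (c - 1) Y i = P' i := by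
    intro i h1 h2
    rw [Function.update_of_ne h2, Function.update_of_ne h1]
  refine ⟨Function.update (Function.update P' c X) (c - 1) Y, ?_, ?_, ?_, ?_⟩
  · intro i
    by_cases h1 : i = c
    · rw [h1, e1]
      exact hX
    · by_cases h2 : i = c - 1
      · rw [h2, e2, sub_add_cancel]
        exact hY
      · rw [e3 i h1 h2]
        have h3 := g1 i
        rw [Function.update_of_ne h1, Function.update_of_ne (fun h => h2 (eq_sub_of_add_eq h))] at h3
        exact h3
  · intro i
    by_cases h1 : i = c
    · rw [h1, e1]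
      exact hXn
    · by_cases h2 : i = c - 1
      · rw [h2, e2]
        exact hYn
      · rw [e3 i h1 h2]
        exact g2 i
  · intro i j hij x hx hx'
    by_cases h1 : i = c
    · rw [h1, e1] at hx
      by_cases h2 : j = c - 1
      · rw [h2, e2] at hx'
        exact hXY x hx hx'
      · have h3 : j ≠ c := fun h => hij (h1.trans h.symm)
        rw [e3 j h3 h2] at hx'
        exact hXd j h3 x hx hx'
    · by_cases h2 : i = c - 1
      · rw [h2, e2] at hx
        by_cases h3 : j = c
        · rw [h3, e1] at hx'
          exact hXY x hx' hx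
        · have h4 : j ≠ c - 1 := fun h => hij (h2.trans h.symm)
          rw [e3 j h3 h4] at hx'
          exact hYd j h4 x hx hx'
      · rw [e3 i h1 h2] at hx
        by_cases h3 : j = c
        · rw [h3, e1] at hx'
          exact hXd i h1 x hx' hx
        · by_cases h4 : j = c - 1
          · rw [h4, e2] at hx'
            exact hYd i h2 x hx' hx
          · rw [e3 j h3 h4] at hx'
            exact g3 i j hij x hx hx'
  · intro i x hx
    by_cases h1 : i = c
    · rw [h1, e1] at hx
      exact hXS x hx
    · by_cases h2 : i = c - 1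
      · rw [h2, e2] at hx
        exact hYS x hx
      · rw [e3 i h1 h2] at hx
        exact hA i x hx
-- END row rep

-- BEGIN row stp
theorem stp_snoc {G : SimpleGraph V} {a x w : V} {L : List V} (h : (a :: (L ++ [x])).IsChain G.Adj)
    (hxw : G.Adj x w) : (a :: ((L ++ [x]) ++ [w])).IsChain G.Adj := by
  have h1 : a :: ((L ++ [x]) ++ [w]) = (a :: (L ++ [x])) ++ [w] := rfl
  rw [h1, List.isChain_append]
  refine ⟨h, by simp, ?_⟩
  intro p hp q hq
  have h2 : (a :: (L ++ [x])).getLast? = some x := by
    rw [← List.cons_append, List.getLast?_append]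
    simp
  rw [h2] at hp
  simp only [Option.mem_def, Option.some.injEq] at hp
  simp only [List.head?_cons, Option.mem_def, Option.some.injEq] at hq
  rw [← hp, ← hq]
  exact hxw

theorem stp_init {G : SimpleGraph V} {a w : V} {L : List V} (h : (a :: (L ++ [w])).IsChain G.Adj) :
    (a :: L).IsChain G.Adj := by
  rw [← List.cons_append, List.isChain_append] at h
  exact h.1

/-- `N` without the terminals -/
noncomputable def stp_F (G : SimpleGraph V) {k : ℕ} (S : Finset V) (t : Fin k → V) (v : V) : Finset V :=
  cn G S v \ Finset.univ.image t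

theorem stp_mem {G : SimpleGraph V} {k : ℕ} {S : Finset V} {t : Fin k → V} {c : Fin k} {x : V}
    (hx : x ∈ stp_F G S t (t c)) : x ∈ S ∧ G.Adj (t c) x ∧ (∀ j, x ≠ t j) ∧ x ∈ cn G S (t c) := by
  rw [stp_F, Finset.mem_sdiff] at hx
  have h1 : ∀ j, x ≠ t j := fun j h => hx.2 (Finset.mem_image.2 ⟨j, Finset.mem_univ _, h.symm⟩)
  have h2 := mem_cn.1 hx.1
  exact ⟨h2.1, h2.2.resolve_left (h1 c), h1, hx.1⟩

theorem stp_card {G : SimpleGraph V} {k : ℕ} {S : Finset V} {t : Fin k → V} (v : V) :
    (cn G S v).card ≤ (Finset.univ.filter (fun i => t i ∈ cn G S v)).card + (stp_F G S t v).card := by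
  have h1 : cn G S v ⊆ (Finset.univ.filter (fun i => t i ∈ cn G S v)).image t ∪ stp_F G S t v := by
    intro x hx
    by_cases h : x ∈ Finset.univ.image t
    · obtain ⟨i, _, rfl⟩ := Finset.mem_image.1 h
      exact Finset.mem_union_left _ (Finset.mem_image.2 ⟨i, Finset.mem_filter.2 ⟨Finset.mem_univ _, hx⟩, rfl⟩)
    · exact Finset.mem_union_right _ (Finset.mem_sdiff.2 ⟨hx, h⟩)
  calc (cn G S v).card ≤ _ := Finset.card_le_card h1
    _ ≤ _ := Finset.card_union_le _ _
    _ ≤ _ := Nat.add_le_add_right Finset.card_image_le _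

/-- The induction step at a terminal `v = t c` that is simple in `S` (`N` below is `cn G S v`). -/
theorem step {G : SimpleGraph V} {k : ℕ} [NeZero k] (hk : 3 ≤ k) {S : Finset V}
    (hS : MSep G (3 * k / 2 - 1) S) {t : Fin k → V} (ht : Function.Injective t)
    (htS : ∀ i, t i ∈ S) (c : Fin k) (hv : Simp G S (t c))
    (ih : ∀ t' : Fin k → V, Function.Injective t' → (∀ i, t' i ∈ S.erase (t c)) →
      ∃ P, Sol G (S.erase (t c)) t' P) : ∃ P, Sol G S t P := by
  classical
  have h1 : (1 : Fin k) ≠ 0 := by
    intro h
    have h2 := congrArg Fin.val h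
    rw [Fin.val_one', Nat.mod_eq_of_lt (by omega)] at h2
    exact absurd h2 (by simp)
  have hc1 : c + 1 ≠ c := fun h => h1 (by rwa [add_eq_left] at h)
  have hc2 : c - 1 ≠ c := fun h => h1 (by rwa [sub_eq_self] at h)
  have hcc : c - 1 + 1 = c := sub_add_cancel c 1
  have hN : 3 * k / 2 - 1 < (cn G S (t c)).card := msep_deg hS (htS c)
  have hcard := stp_card (G := G) (S := S) (t := t) (t c)
  have hQk : (Finset.univ.filter (fun i => t i ∈ cn G S (t c))).card ≤ k := by
    have := Finset.card_le_univ (Finset.univ.filter (fun i => t i ∈ cn G S (t c)))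
    rwa [Fintype.card_fin] at this
  have hinj : ∀ u, (∀ j, u ≠ t j) → Function.Injective (Function.update t c u) := by
    intro u hu i j hij
    by_cases hi : i = c <;> by_cases hj : j = c
    · rw [hi, hj]
    · rw [hi, Function.update_self, Function.update_of_ne hj] at hij
      exact absurd hij (hu j)
    · rw [hj, Function.update_self, Function.update_of_ne hi] at hij
      exact absurd hij.symm (hu i)
    · rw [Function.update_of_ne hi, Function.update_of_ne hj] at hij
      exact ht hij
  have hsolve : ∀ u ∈ stp_F G S t (t c), ∃ P, Sol G (S.erase (t c)) (Function.update t c u) P := by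
    intro u hu
    obtain ⟨huS, _, hut, _⟩ := stp_mem hu
    refine ih _ (hinj u hut) fun i => ?_
    by_cases hi : i = c
    · rw [hi, Function.update_self, Finset.mem_erase]
      exact ⟨hut c, huS⟩
    · rw [Function.update_of_ne hi, Finset.mem_erase]
      exact ⟨fun h => hi (ht h), htS i⟩
  have hFne : (stp_F G S t (t c)).Nonempty := by
    rw [← Finset.card_pos]
    omega
  -- facts on the solutions
  have hup1 : ∀ u, Function.update t c u (c + 1) = t (c + 1) := fun u => Function.update_of_ne hc1 _ _
  have hup2 : ∀ u, Function.update t c u (c - 1) = t (c - 1) := fun u => Function.update_of_ne hc2 _ _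
  have hup0 : ∀ u, Function.update t c u c = u := fun u => Function.update_self _ _ _
  have hXc : ∀ u P', Sol G (S.erase (t c)) (Function.update t c u) P' →
      (u :: (P' c ++ [t (c + 1)])).IsChain G.Adj := by
    intro u P' hP
    have h := hP.1 c
    rwa [hup0, hup1] at h
  have hYc : ∀ u P', Sol G (S.erase (t c)) (Function.update t c u) P' →
      (t (c - 1) :: (P' (c - 1) ++ [u])).IsChain G.Adj := by
    intro u P' hP
    have h := hP.1 (c - 1)
    rwa [hup2, hcc, hup0] at h
  have huP : ∀ u P', Sol G (S.erase (t c)) (Function.update t c u) P' → ∀ j, u ∉ P' j := by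
    intro u P' hP j hu
    have h := (hP.2.2.2 j u hu).2 c
    rw [hup0] at h
    exact h rfl
  have hAdj : ∀ j, j ≠ c → t j ∈ cn G S (t c) → G.Adj (t c) (t j) := fun j hj h =>
    (mem_cn.1 h).2.resolve_left fun he => hj (ht he)
  have hX : ∀ u ∈ stp_F G S t (t c), ∀ P', Sol G (S.erase (t c)) (Function.update t c u) P' →
      (t c :: ((u :: P' c) ++ [t (c + 1)])).IsChain G.Adj := by
    intro u hu P' hP
    rw [List.cons_append, List.isChain_cons_cons]
    exact ⟨(stp_mem hu).2.1, hXc u P' hP⟩
  have hY : ∀ u ∈ stp_F G S t (t c), ∀ P', Sol G (S.erase (t c)) (Function.update t c u) P' →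
      (t (c - 1) :: ((P' (c - 1) ++ [u]) ++ [t c])).IsChain G.Adj := fun u hu P' hP =>
    stp_snoc (hYc u P' hP) (stp_mem hu).2.1.symm
  have hnil : ∀ a b, G.Adj a b → (a :: (([] : List V) ++ [b])).IsChain G.Adj := by
    intro a b hab
    rw [List.nil_append, List.isChain_cons_cons]
    exact ⟨hab, by simp⟩
  have hYn : ∀ u P', Sol G (S.erase (t c)) (Function.update t c u) P' → (P' (c - 1) ++ [u]).Nodup := by
    intro u P' hP
    rw [List.nodup_append]
    refine ⟨hP.2.1 _, by simp, ?_⟩
    intro x hx y hy
    rw [List.mem_singleton] at hy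
    subst hy
    rintro rfl
    exact huP x P' hP _ hx
  have hXn : ∀ u P', Sol G (S.erase (t c)) (Function.update t c u) P' → (u :: P' c).Nodup := by
    intro u P' hP
    rw [List.nodup_cons]
    exact ⟨huP u P' hP c, hP.2.1 c⟩
  by_cases hA : t (c + 1) ∈ cn G S (t c)
  · obtain ⟨u, hu⟩ := hFne
    obtain ⟨P', hP⟩ := hsolve u hu
    obtain ⟨huS, _, hut, _⟩ := stp_mem hu
    by_cases hB : t (c - 1) ∈ cn G S (t c)
    · exact replace hk ht hut huS hP [] [] (hnil _ _ (hAdj _ hc1 hA)) (hnil _ _ (hAdj _ hc2 hB).symm)
        (by simp) (by simp) (by simp) (by simp) (by simp)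
    · refine replace hk ht hut huS hP [] (P' (c - 1) ++ [u]) (hnil _ _ (hAdj _ hc1 hA)) (hY u hu P' hP)
        (by simp) (hYn u P' hP) (by simp) (by simp) ?_
      intro x hx
      rw [List.mem_append, List.mem_singleton] at hx
      rcases hx with hx | rfl
      · exact Or.inl hx
      · exact Or.inr ⟨huS, hut, huP x P' hP⟩
  · by_cases hB : t (c - 1) ∈ cn G S (t c)
    · obtain ⟨u, hu⟩ := hFne
      obtain ⟨P', hP⟩ := hsolve u hu
      obtain ⟨huS, _, hut, _⟩ := stp_mem hu
      refine replace hk ht hut huS hP (u :: P' c) [] (hX u hu P' hP) (hnil _ _ (hAdj _ hc2 hB).symm)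
        (hXn u P' hP) (by simp) (by simp) ?_ (by simp)
      intro x hx
      rw [List.mem_cons] at hx
      rcases hx with rfl | hx
      · exact Or.inr ⟨huS, hut, huP x P' hP⟩
      · exact Or.inl hx
    · -- the main case
      obtain ⟨u, hu, hmin⟩ := Finset.exists_min_image (stp_F G S t (t c)) (fun x => (cn G S x).card) hFne
      obtain ⟨huS, hvu, hut, huN⟩ := stp_mem hu
      have hsub : ∀ u' ∈ stp_F G S t (t c), cn G S u ⊆ cn G S u' := by
        intro u' hu'
        rcases hv u huN u' (stp_mem hu').2.2.2 with h | h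
        · exact h
        · rw [Finset.eq_of_subset_of_card_le h (hmin u' hu')]
      obtain ⟨P', hP, hInd⟩ := min_sol (hsolve u hu)
      have hXm : ∀ x ∈ u :: P' c, x ∈ P' c ∨ (x ∈ S ∧ (∀ j, x ≠ t j) ∧ ∀ j, x ∉ P' j) := by
        intro x hx
        rw [List.mem_cons] at hx
        rcases hx with rfl | hx
        · exact Or.inr ⟨huS, hut, huP x P' hP⟩
        · exact Or.inl hx
      have hYm : ∀ x ∈ P' (c - 1) ++ [u], x ∈ P' (c - 1) ∨ (x ∈ S ∧ (∀ j, x ≠ t j) ∧ ∀ j, x ∉ P' j) := by
        intro x hx
        rw [List.mem_append, List.mem_singleton] at hx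
        rcases hx with hx | rfl
        · exact Or.inl hx
        · exact Or.inr ⟨huS, hut, huP x P' hP⟩
      have hdis : ∀ x ∈ P' c, x ∉ P' (c - 1) := fun x hx => hP.2.2.1 c (c - 1) hc2.symm x hx
      have hmem : ∀ j, ∀ x ∈ P' j, x ∈ cn G S (t c) → x ≠ u ∧ G.Adj (t c) x := by
        intro j x hx hxN
        refine ⟨fun h => huP u P' hP j (h ▸ hx), ?_⟩
        refine (mem_cn.1 hxN).2.resolve_left fun h => ?_
        exact (Finset.mem_erase.1 (hP.2.2.2 j x hx).1).1 h
      by_cases hi : ∃ x ∈ P' c, x ∈ cn G S (t c)
      · obtain ⟨x, hx, hxN⟩ := hi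
        obtain ⟨hxu, hvx⟩ := hmem c x hx hxN
        have hux : G.Adj u x := simp_clique hv huN hxN hxu.symm
        have hI := hInd c
        rw [hup0, hup1] at hI
        obtain ⟨R, hR⟩ := ind_head hI hx hux
        refine replace hk ht hut huS hP (P' c) (P' (c - 1) ++ [u]) ?_ (hY u hu P' hP) (hP.2.1 c) (hYn u P' hP) ?_
          (fun x hx => Or.inl hx) hYm
        · have h := hXc u P' hP
          rw [hR, List.cons_append, List.isChain_cons_cons] at h ⊢
          exact ⟨hvx, h.2⟩
        · intro y hy hy2
          rw [List.mem_append, List.mem_singleton] at hy2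
          rcases hy2 with h | h
          · exact hdis y hy h
          · exact huP u P' hP c (h ▸ hy)
      · by_cases hii : ∃ x ∈ P' (c - 1), x ∈ cn G S (t c)
        · obtain ⟨x, hx, hxN⟩ := hii
          obtain ⟨hxu, hvx⟩ := hmem (c - 1) x hx hxN
          have hux : G.Adj x u := simp_clique hv hxN huN hxu
          have hI := hInd (c - 1)
          rw [hup2, hcc, hup0] at hI
          obtain ⟨R, hR⟩ := ind_last hI hx hux
          refine replace hk ht hut huS hP (u :: P' c) (P' (c - 1)) (hX u hu P' hP) ?_ (hXn u P' hP) (hP.2.1 _) ?_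
            hXm (fun x hx => Or.inl hx)
          · have h := stp_init (hYc u P' hP)
            rw [hR] at h ⊢
            exact stp_snoc h hvx.symm
          · intro y hy hy2
            rw [List.mem_cons] at hy
            rcases hy with h | h
            · exact huP u P' hP _ (h ▸ hy2)
            · exact hdis y h hy2
        · push Not at hi hii
          -- the count
          have hused := card_used (G := G) hk (S := S) (N := cn G S (t c)) (t := t) (P := P') (c := c) (u := u)
            (Finset.univ.filter (fun i => ¬ G.Adj (t i) (t (i + 1))))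
            (Finset.mem_filter.2 ⟨Finset.mem_univ _, fun h => hA (mem_cn.2 ⟨htS _, Or.inr h⟩)⟩)
            (Finset.mem_filter.2 ⟨Finset.mem_univ _, fun h => hB (by
              rw [hcc] at h
              exact mem_cn.2 ⟨htS _, Or.inr h.symm⟩)⟩)
            (by
              intro i hiB
              rw [Finset.mem_filter, not_and_not_right] at hiB
              have hadj := hiB (Finset.mem_univ _)
              have hic : i ≠ c := by
                rintro rfl
                exact hA (mem_cn.2 ⟨htS _, Or.inr hadj⟩)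
              have hic1 : i + 1 ≠ c := by
                intro h
                rw [h] at hadj
                have h2 : i = c - 1 := eq_sub_of_add_eq h
                rw [h2] at hadj
                exact hB (mem_cn.2 ⟨htS _, Or.inr hadj.symm⟩)
              by_contra hne
              have h := hInd i [] (Function.update t c u i) (P' i) (Function.update t c u (i + 1)) [] rfl hne
              rw [Function.update_of_ne hic, Function.update_of_ne hic1] at h
              exact h hadj)
            (by
              intro i hic hic1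
              have hic2 : i + 1 ≠ c := fun h => hic1 (eq_sub_of_add_eq h)
              have hchain := hP.1 i
              have hIi := hInd i
              rw [Function.update_of_ne hic, Function.update_of_ne hic2] at hchain hIi
              have hii1 : i ≠ i + 1 := fun h => h1 (by rwa [left_eq_add] at h)
              have hPi : ∀ x ∈ P' i, x ≠ t i ∧ x ≠ t (i + 1) ∧ x ∈ S := by
                intro x hx
                have h := hP.2.2.2 i x hx
                have ha := h.2 i
                have hb := h.2 (i + 1)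
                rw [Function.update_of_ne hic] at ha
                rw [Function.update_of_ne hic2] at hb
                exact ⟨ha, hb, Finset.mem_of_mem_erase h.1⟩
              refine ind_one hchain ?_ hIi ?_ _ (fun x hx y hy => hv x hx y hy)
              · rw [List.nodup_cons, List.nodup_append]
                refine ⟨?_, hP.2.1 i, by simp, ?_⟩
                · rw [List.mem_append, List.mem_singleton, not_or]
                  exact ⟨fun h => (hPi _ h).1 rfl, fun h => hii1 (ht h)⟩
                · intro x hx y hy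
                  rw [List.mem_singleton] at hy
                  rw [hy]
                  exact (hPi x hx).2.1
              · intro z hz
                rw [List.mem_cons, List.mem_append, List.mem_singleton] at hz
                rcases hz with h | h | h
                · rw [h]
                  exact htS i
                · exact (hPi z h).2.2
                · rw [h]
                  exact htS _)
            hi hii
          have hcnt := card_cnt (Finset.univ.filter (fun i => t i ∈ cn G S (t c)))
            (Finset.univ.filter (fun i => ¬ G.Adj (t i) (t (i + 1)))) (by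
              intro i hi1 hi2 hi3
              rw [Finset.mem_filter] at hi1 hi2 hi3
              have hii1 : i ≠ i + 1 := fun h => h1 (by rwa [left_eq_add] at h)
              exact hi3.2 (simp_clique hv hi1.2 hi2.2 fun h => hii1 (ht h)))
          have hBpos : 0 < (Finset.univ.filter (fun i => ¬ G.Adj (t i) (t (i + 1)))).card :=
            Finset.card_pos.2 ⟨c, Finset.mem_filter.2 ⟨Finset.mem_univ _, fun h => hA (mem_cn.2 ⟨htS _, Or.inr h⟩)⟩⟩
          have hlt : (insert u (Finset.univ.biUnion (fun i => (P' i).toFinset ∩ cn G S (t c)))).card <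
              (stp_F G S t (t c)).card := by omega
          obtain ⟨u', hu', hu'no⟩ := Finset.exists_mem_notMem_of_card_lt_card hlt
          obtain ⟨hu'S, hvu', hu't, hu'N⟩ := stp_mem hu'
          rw [Finset.mem_insert, not_or] at hu'no
          have hu'P : ∀ j, u' ∉ P' j := by
            intro j hj
            exact hu'no.2 (Finset.mem_biUnion.2 ⟨j, Finset.mem_univ _, Finset.mem_inter.2
              ⟨List.mem_toFinset.2 hj, hu'N⟩⟩)
          refine replace hk ht hut huS hP (u' :: P' c) (P' (c - 1) ++ [u]) ?_ (hY u hu P' hP) ?_ (hYn u P' hP) ?_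
            ?_ hYm
          · rw [List.cons_append, List.isChain_cons_cons]
            refine ⟨hvu', ?_⟩
            have h := hXc u P' hP
            have hmemS : ∀ z ∈ P' c ++ [t (c + 1)], z ∈ S ∧ z ≠ u' := by
              intro z hz
              rw [List.mem_append, List.mem_singleton] at hz
              rcases hz with hz | hz
              · exact ⟨Finset.mem_of_mem_erase (hP.2.2.2 c z hz).1, fun he => hu'P c (he ▸ hz)⟩
              · rw [hz]
                exact ⟨htS _, fun he => hu't _ he.symm⟩
            generalize P' c ++ [t (c + 1)] = L at h hmemS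
            cases L with
            | nil => simp
            | cons z L =>
              rw [List.isChain_cons_cons] at h ⊢
              obtain ⟨hzS, hzu'⟩ := hmemS z List.mem_cons_self
              have hz1 : z ∈ cn G S u := mem_cn.2 ⟨hzS, Or.inr h.1⟩
              exact ⟨(mem_cn.1 (hsub u' hu' hz1)).2.resolve_left hzu', h.2⟩
          · rw [List.nodup_cons]
            exact ⟨hu'P c, hP.2.1 c⟩
          · intro y hy hy2
            rw [List.mem_append, List.mem_singleton] at hy2
            rw [List.mem_cons] at hy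
            rcases hy with hy | hy
            · rw [hy] at hy2
              rcases hy2 with h | h
              · exact hu'P _ h
              · exact hu'no.1 h
            · rcases hy2 with h | h
              · exact hdis y hy h
              · exact huP u P' hP c (h ▸ hy)
          · intro x hx
            rw [List.mem_cons] at hx
            rcases hx with rfl | hx
            · exact Or.inr ⟨hu'S, hu't, hu'P⟩
            · exact Or.inl hx
-- END row stp

-- BEGIN row ids
/-- All solutions, by induction on `|S|` (a clique if `|S| ≤ m + 1`; otherwise a simple vertex: not a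
terminal, or `step`). -/
theorem all_sol {G : SimpleGraph V} (hG : StronglyChordal G) {k : ℕ} [NeZero k] (hk : 3 ≤ k)
    (n : ℕ) : ∀ S : Finset V, S.card = n → MSep G (3 * k / 2 - 1) S → ∀ t : Fin k → V,
      Function.Injective t → (∀ i, t i ∈ S) → ∃ P, Sol G S t P := by
  induction n with
  | zero =>
    intro S hS hM
    have := hM.1
    omega
  | succ n ih =>
    intro S hS hM t ht htS
    by_cases hle : S.card ≤ 3 * k / 2 - 1 + 1
    · refine ⟨fun _ => [], ?_, ?_, ?_, ?_⟩
      · intro i
        have hne : i ≠ i + 1 := by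
          intro h0
          have h1 : (1 : Fin k) = 0 := by
            have h2 : i + 0 = i + 1 := by rw [add_zero]; exact h0
            exact (add_left_cancel h2).symm
          have h3 := congrArg Fin.val h1
          rw [Fin.val_one', Fin.val_zero, Nat.mod_eq_of_lt (by omega)] at h3
          omega
        have hadj : G.Adj (t i) (t (i + 1)) :=
          msep_clique hM hle (htS i) (htS (i + 1)) (fun h0 => hne (ht h0))
        simpa using hadj
      · intro i
        exact List.nodup_nil
      · intro i j _ x hx
        exact absurd hx List.not_mem_nil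
      · intro i x hx
        exact absurd hx List.not_mem_nil
    · push Not at hle
      obtain ⟨v, hv, hsv⟩ := exists_simp hG S (Finset.card_pos.1 (by omega))
      have hM' : MSep G (3 * k / 2 - 1) (S.erase v) :=
        msep_erase hM hv (fun x hx y hy hxy => simp_clique hsv hx hy hxy) hle
      have hc' : (S.erase v).card = n := by
        rw [Finset.card_erase_of_mem hv, hS]
        rfl
      by_cases hvt : ∃ c, t c = v
      · obtain ⟨c, rfl⟩ := hvt
        exact step hk hM ht htS c hsv (fun t' ht' htS' => ih _ hc' hM' t' ht' htS')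
      · push Not at hvt
        obtain ⟨P, h1, h2, h3, h4⟩ := ih _ hc' hM' t ht
          (fun i => Finset.mem_erase.2 ⟨hvt i, htS i⟩)
        exact ⟨P, h1, h2, h3, fun i x hx => ⟨Finset.mem_of_mem_erase (h4 i x hx).1, (h4 i x hx).2⟩⟩
-- END row ids

/-- The upper bound. -/
theorem upper (k : ℕ) (hk : 3 ≤ k) (W : Type) [Fintype W] (G : SimpleGraph W)
    (hG : StronglyChordal G) (hc : MConn (3 * k / 2 - 1) G) : KOrdered k G := by
  classical
  haveI : NeZero k := ⟨by omega⟩
  intro v hv
  obtain ⟨P, h1, h2, h3, h4⟩ := all_sol hG hk _ Finset.univ rfl (msep_univ hc) v hv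
    (fun i => Finset.mem_univ _)
  exact Kcb.exists_cycle_lists G k hk v hv P h1 h2 h3 (fun i x hx j => (h4 i x hx).2 j)

end Kci
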